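import Pool.Agent.TurnOne.Low

/-! Integer valued functions `f1(y1) + f2(y2) + f3(y3)` that are at least minus the indicator of
a turned unit triangle modulo the lattice have nonnegative mean. -/

set_option autoImplicit false

namespace Pool.Agent.TurnOne

open MeasureTheory Set

/-- periodic, upper semicontinuous, bounded integer valued function -/
structure Fn (f : ℝ → ℤ) : Prop where
  per : ∀ t, f (t + 1) = f t
  usc : ∀ m : ℤ, IsOpen {t | f t < m}
  bdd : ∃ M : ℤ, ∀ t, -M ≤ f t ∧ f t ≤ M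

/-- the mean -/
noncomputable def I (f : ℝ → ℤ) : ℝ := ∫ t in (0 : ℝ)..1, (f t : ℝ)

theorem int_bdd {g : ℝ → ℝ} (hg : Measurable g) {M : ℝ} (hM : ∀ t, |g t| ≤ M) :
    IntegrableOn g (Ico 0 1) := by
  refine Measure.integrableOn_of_bounded (M := M) (by simp) hg.aestronglyMeasurable ?_
  exact Filter.Eventually.of_forall fun t => hM t

theorem Ico_int (g : ℝ → ℝ) : ∫ t in (0 : ℝ)..1, g t = ∫ t in Ico (0 : ℝ) 1, g t := by
  rw [intervalIntegral.integral_of_le zero_le_one, integral_Ico_eq_integral_Ioo,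
    integral_Ioc_eq_integral_Ioo]

variable {f f1 f2 f3 : ℝ → ℤ}

theorem Fn.per_int (h : Fn f) (t : ℝ) (i : ℤ) : f (t + i) = f t := by
  have hp : Function.Periodic f 1 := h.per
  have h1 := hp.int_mul i t
  simpa using h1

theorem Fn.meas (h : Fn f) : Measurable f := by
  apply measurable_to_countable'
  intro m
  have : f ⁻¹' {m} = {t | f t < m + 1} \ {t | f t < m} := by
    ext t
    simp only [mem_preimage, mem_singleton_iff, mem_sdiff, mem_ofPred_eq]
    omega
  rw [this]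
  exact (h.usc _).measurableSet.diff (h.usc _).measurableSet

theorem Fn.meas' (h : Fn f) : Measurable fun t => (f t : ℝ) :=
  (measurable_from_top (f := fun n : ℤ => (n : ℝ))).comp h.meas

theorem Fn.refl (h : Fn f) (d : ℝ) : Fn fun t => f (d - t) where
  per := by
    intro t
    have := h.per_int (d - t) (-1)
    push_cast at this
    rw [← this]
    congr 1
    ring
  usc := by
    intro m
    exact (h.usc m).preimage (continuous_const.sub continuous_id)
  bdd := by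
    obtain ⟨M, hM⟩ := h.bdd
    exact ⟨M, fun t => hM _⟩

theorem I_refl (h : Fn f) (d : ℝ) : I (fun t => f (d - t)) = I f := by
  unfold I
  rw [intervalIntegral.integral_comp_sub_left (fun t => (f t : ℝ)) d]
  have hp : Function.Periodic (fun t => (f t : ℝ)) 1 := by
    intro t
    simp only
    rw [h.per]
  have := hp.intervalIntegral_add_eq (d - 1) 0
  rw [sub_add_cancel, zero_add] at this
  rw [sub_zero]
  exact this

theorem Fn.abs_le (h : Fn f) : ∃ M : ℝ, ∀ t, |(f t : ℝ)| ≤ M := by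
  obtain ⟨M, hM⟩ := h.bdd
  refine ⟨M, fun t => _root_.abs_le.2 ⟨?_, ?_⟩⟩
  · exact_mod_cast (hM t).1
  · exact_mod_cast (hM t).2

theorem Fn.intO (h : Fn f) : IntegrableOn (fun t => (f t : ℝ)) (Ico 0 1) := by
  obtain ⟨M, hM⟩ := h.abs_le
  exact int_bdd h.meas' hM

theorem ind_int {S : Set ℝ} (mS : MeasurableSet S) :
    IntegrableOn (S.indicator (1 : ℝ → ℝ)) (Ico 0 1) := by
  apply int_bdd (M := 1)
  · exact measurable_one.indicator mS
  · intro t
    unfold Set.indicator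
    split_ifs <;> simp

theorem ind_int_eq {S : Set ℝ} (mS : MeasurableSet S) :
    ∫ t in Ico (0 : ℝ) 1, S.indicator (1 : ℝ → ℝ) t = (volume (S ∩ Ico 0 1)).toReal := by
  rw [integral_indicator_one mS, Measure.real, Measure.restrict_apply mS]

theorem min_exists (h : Fn f) : ∃ m : ℤ, (∀ t, m ≤ f t) ∧ ∃ t, f t = m := by
  obtain ⟨M, hM⟩ := h.bdd
  obtain ⟨m, ⟨t, ht⟩, hm⟩ := Int.exists_least_of_bdd (P := fun z => ∃ t, f t = z)
    ⟨-M, fun z ⟨t, ht⟩ => ht ▸ (hM t).1⟩ ⟨f 0, 0, rfl⟩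
  exact ⟨m, fun t => hm _ ⟨t, rfl⟩, t, ht⟩

theorem mean_ge (h : Fn f) {m : ℤ} (hm : ∀ t, m ≤ f t) :
    (m : ℝ) + 1 - sg {t | f t < m + 1} ≤ I f := by
  set S : Set ℝ := {t | f t < m + 1} with hS
  have mS : MeasurableSet S := (h.usc _).measurableSet
  have h1 : ∫ t in Ico (0 : ℝ) 1, ((m : ℝ) + 1 - S.indicator (1 : ℝ → ℝ) t) ≤
      ∫ t in Ico (0 : ℝ) 1, (f t : ℝ) := by
    apply setIntegral_mono
    · exact (integrableOn_const (by simp)).sub (ind_int mS)
    · exact h.intO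
    · intro t
      simp only
      by_cases ht : t ∈ S
      · rw [Set.indicator_of_mem ht]
        simp only [Pi.one_apply]
        have : (m : ℝ) ≤ f t := by exact_mod_cast hm t
        linarith
      · rw [Set.indicator_of_notMem ht]
        have : (m : ℝ) + 1 ≤ f t := by
          have h2 : ¬ (f t < m + 1) := ht
          exact_mod_cast not_lt.1 h2
        linarith
  have ic : IntegrableOn (fun _ : ℝ => (m : ℝ) + 1) (Ico 0 1) := integrableOn_const (by simp)
  rw [integral_sub ic (ind_int mS), ind_int_eq mS] at h1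
  unfold I
  rw [Ico_int]
  simpa [sg] using h1

/-- the chord inequality -/
theorem fn_cb (h2 : Fn f2) (h3 : Fn f3) {a q : ℝ}
    (hyp : ∀ y1 y2 y3, y1 + y2 + y3 = a + q → 0 ≤ f1 y1 + f2 y2 + f3 y3 ∨
      (f1 y1 + f2 y2 + f3 y3 = -1 ∧ ∃ i1 i2 i3 : ℤ, InE a q (y1 + i1) (y2 + i2) (y3 + i3)))
    (t : ℝ) : CB a q t (-(f1 t + I f2 + I f3)) := by
  intro J mJ fJ hJ
  set R : Set ℝ := ⋃ i : ℤ, (fun y : ℝ => y + i) ⁻¹' J with hR
  have mR : MeasurableSet R := MeasurableSet.iUnion fun i => (measurable_id.add_const _) mJ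
  have vR : volume (R ∩ Ico 0 1) ≤ volume J := by
    apply vol_le_of_shift (p := 0) mJ
    · rw [zero_add]; exact inter_subset_right
    · rintro y ⟨hy, _⟩
      obtain ⟨i, hi⟩ := mem_iUnion.1 hy
      exact ⟨i, hi⟩
  have hpt : ∀ y : ℝ, 0 ≤ (f1 t : ℝ) + f2 (a + q - t - y) + f3 y + R.indicator (1 : ℝ → ℝ) y := by
    intro y
    rcases hyp t (a + q - t - y) y (by ring) with h | ⟨h, i1, i2, i3, hE⟩
    · have h' : (0 : ℝ) ≤ (f1 t : ℝ) + f2 (a + q - t - y) + f3 y := by exact_mod_cast h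
      have : 0 ≤ R.indicator (1 : ℝ → ℝ) y := Set.indicator_nonneg (fun _ _ => zero_le_one) _
      linarith
    · have hy : y ∈ R := by
        refine mem_iUnion.2 ⟨i3, ?_⟩
        apply hJ i1
        have e1 := hE.1
        have e : a + q - (t + i1) - (y + i3) = a + q - t - y + i2 := by linarith
        rw [e]
        exact hE
      rw [Set.indicator_of_mem hy]
      have h' : (f1 t : ℝ) + f2 (a + q - t - y) + f3 y = -1 := by exact_mod_cast h
      simp only [Pi.one_apply]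
      linarith
  have hr := h2.refl (a + q - t)
  have i0 : IntegrableOn (fun _ : ℝ => (f1 t : ℝ)) (Ico 0 1) := integrableOn_const (by simp)
  have i1 : IntegrableOn (fun y : ℝ => (f1 t : ℝ) + f2 (a + q - t - y)) (Ico 0 1) :=
    i0.add hr.intO
  have i2 : IntegrableOn (fun y : ℝ => (f1 t : ℝ) + f2 (a + q - t - y) + f3 y) (Ico 0 1) :=
    i1.add h3.intO
  have hint : 0 ≤ ∫ y in Ico (0 : ℝ) 1,
      ((f1 t : ℝ) + f2 (a + q - t - y) + f3 y + R.indicator (1 : ℝ → ℝ) y) :=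
    integral_nonneg fun y => hpt y
  rw [integral_add i2 (ind_int mR), integral_add i1 h3.intO, integral_add i0 hr.intO,
    ind_int_eq mR, ← Ico_int, ← Ico_int, ← Ico_int] at hint
  have e2 : ∫ y in (0 : ℝ)..1, (f2 (a + q - t - y) : ℝ) = I f2 := I_refl h2 (a + q - t)
  have e3 : ∫ y in (0 : ℝ)..1, (f3 y : ℝ) = I f3 := rfl
  rw [e2, e3] at hint
  have e4 : (volume (R ∩ Ico 0 1)).toReal ≤ (volume J).toReal := ENNReal.toReal_mono fJ vR
  simp only [intervalIntegral.integral_const, sub_zero, one_smul] at hint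
  linarith

theorem main_le {a q r : ℝ} (P : Par a q r) (hqr : q ≤ r) (h1 : Fn f1) (h2 : Fn f2) (h3 : Fn f3)
    (hyp : ∀ y1 y2 y3, y1 + y2 + y3 = a + q → 0 ≤ f1 y1 + f2 y2 + f3 y3 ∨
      (f1 y1 + f2 y2 + f3 y3 = -1 ∧ ∃ i1 i2 i3 : ℤ, InE a q (y1 + i1) (y2 + i2) (y3 + i3))) :
    0 ≤ I f1 + I f2 + I f3 := by
  by_contra hcon
  push Not at hcon
  have h0 := P.one_lt
  obtain ⟨m1, hm1, t1, ht1⟩ := min_exists h1
  obtain ⟨m2, hm2, t2, ht2⟩ := min_exists h2
  obtain ⟨m3, hm3, t3, ht3⟩ := min_exists h3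
  have hyp2 : ∀ y2 y3 y1, y2 + y3 + y1 = a + q → 0 ≤ f2 y2 + f3 y3 + f1 y1 ∨
      (f2 y2 + f3 y3 + f1 y1 = -1 ∧ ∃ i1 i2 i3 : ℤ, InE a q (y2 + i1) (y3 + i2) (y1 + i3)) := by
    intro y2 y3 y1 hs
    rcases hyp y1 y2 y3 (by linarith) with h | ⟨h, i1, i2, i3, hE⟩
    · left; omega
    · right; exact ⟨by omega, i2, i3, i1, hE.cyc⟩
  have hyp3 : ∀ y3 y1 y2, y3 + y1 + y2 = a + q → 0 ≤ f3 y3 + f1 y1 + f2 y2 ∨
      (f3 y3 + f1 y1 + f2 y2 = -1 ∧ ∃ i1 i2 i3 : ℤ, InE a q (y3 + i1) (y1 + i2) (y2 + i3)) := by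
    intro y3 y1 y2 hs
    rcases hyp y1 y2 y3 (by linarith) with h | ⟨h, i1, i2, i3, hE⟩
    · left; omega
    · right; exact ⟨by omega, i3, i1, i2, hE.cyc.cyc⟩
  set S1 : Set ℝ := {t | f1 t < m1 + 1} with hS1
  set S2 : Set ℝ := {t | f2 t < m2 + 1} with hS2
  set S3 : Set ℝ := {t | f3 t < m3 + 1} with hS3
  have val1 : ∀ t ∈ S1, f1 t = m1 := fun t ht => by
    have := hm1 t; have h : f1 t < m1 + 1 := ht; omega
  have val2 : ∀ t ∈ S2, f2 t = m2 := fun t ht => by
    have := hm2 t; have h : f2 t < m2 + 1 := ht; omega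
  have val3 : ∀ t ∈ S3, f3 t = m3 := fun t ht => by
    have := hm3 t; have h : f3 t < m3 + 1 := ht; omega
  have p1 : Per S1 := fun t ht i => by
    have h : f1 t < m1 + 1 := ht
    show f1 (t + i) < m1 + 1
    rwa [h1.per_int]
  have p2 : Per S2 := fun t ht i => by
    have h : f2 t < m2 + 1 := ht
    show f2 (t + i) < m2 + 1
    rwa [h2.per_int]
  have p3 : Per S3 := fun t ht i => by
    have h : f3 t < m3 + 1 := ht
    show f3 (t + i) < m3 + 1
    rwa [h3.per_int]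
  have n1 : 0 < sg S1 := sg_pos (h1.usc _) p1 ⟨t1, show f1 t1 < m1 + 1 by omega⟩
  have n2 : 0 < sg S2 := sg_pos (h2.usc _) p2 ⟨t2, show f2 t2 < m2 + 1 by omega⟩
  have n3 : 0 < sg S3 := sg_pos (h3.usc _) p3 ⟨t3, show f3 t3 < m3 + 1 by omega⟩
  have g1 := mean_ge h1 hm1
  have g2 := mean_ge h2 hm2
  have g3 := mean_ge h3 hm3
  rw [← hS1] at g1
  rw [← hS2] at g2
  rw [← hS3] at g3
  have k1 := small P (h1.usc _).measurableSet p1 (g := -(m1 + I f2 + I f3)) (by linarith) n1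
    (fun t ht => by rw [← val1 t ht]; exact fn_cb h2 h3 hyp t)
  have k2 := small P (h2.usc _).measurableSet p2 (g := -(m2 + I f3 + I f1)) (by linarith) n2
    (fun t ht => by rw [← val2 t ht]; exact fn_cb h3 h1 hyp2 t)
  have k3 := small P (h3.usc _).measurableSet p3 (g := -(m3 + I f1 + I f2)) (by linarith) n3
    (fun t ht => by rw [← val3 t ht]; exact fn_cb h1 h2 hyp3 t)
  have hk : -((m1 : ℝ) + m2 + m3) * (a + 1) < 3 := by
    have : -((m1 : ℝ) + m2 + m3) ≤ -(m1 + I f2 + I f3) + -(m2 + I f3 + I f1) +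
      -(m3 + I f1 + I f2) := by linarith
    nlinarith
  have hm : -1 ≤ m1 + m2 + m3 := by
    by_contra h
    have h4 : m1 + m2 + m3 ≤ -2 := by omega
    have h5 : (m1 : ℝ) + m2 + m3 ≤ -2 := by exact_mod_cast h4
    nlinarith
  have hm' : (-1 : ℝ) ≤ (m1 : ℝ) + m2 + m3 := by exact_mod_cast hm
  have hsum : 2 < sg S1 + sg S2 + sg S3 := by linarith
  have b1 := sg_le_one S1
  have b2 := sg_le_one S2
  have b3 := sg_le_one S3
  have hmneg : m1 + m2 + m3 < 0 := by
    have : (m1 : ℝ) + m2 + m3 < 0 := by linarith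
    exact_mod_cast this
  have C : Cov a q S1 S2 S3 :=
    { o1 := h1.usc _
      o2 := h2.usc _
      o3 := h3.usc _
      p1 := p1
      p2 := p2
      p3 := p3
      cov := by
        intro y1 hy1 y2 hy2 y3 hy3 hs
        rcases hyp y1 y2 y3 hs with h | ⟨_, h⟩
        · rw [val1 _ hy1, val2 _ hy2, val3 _ hy3] at h
          omega
        · exact h }
  have := no_K C P hqr
  linarith

/-- nonnegative mean, all parameters -/
theorem main_all {a q r : ℝ} (P : Par a q r) (h1 : Fn f1) (h2 : Fn f2) (h3 : Fn f3)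
    (hyp : ∀ y1 y2 y3, y1 + y2 + y3 = a + q → 0 ≤ f1 y1 + f2 y2 + f3 y3 ∨
      (f1 y1 + f2 y2 + f3 y3 = -1 ∧ ∃ i1 i2 i3 : ℤ, InE a q (y1 + i1) (y2 + i2) (y3 + i3))) :
    0 ≤ I f1 + I f2 + I f3 := by
  rcases le_total q r with hqr | hqr
  · exact main_le P hqr h1 h2 h3 hyp
  · have P' : Par a r q :=
      { hq := P.hr
        hr := P.hq
        ha := by rw [P.ha]; ring
        rel := by have := P.rel; linarith }
    have := main_le P' hqr (h2.refl a) (h1.refl a) (h3.refl a) (by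
      intro y1 y2 y3 hs
      have ha := P.ha
      rcases hyp (a - y2) (a - y1) (a - y3) (by linarith) with h | ⟨h, i1, i2, i3, hE⟩
      · left; omega
      · right
        refine ⟨by omega, -i2, -i1, -i3, ?_⟩
        have hE' := hE.refl P'
        have e1 : a - (a - y1 + (i2 : ℝ)) = y1 + ((-i2 : ℤ) : ℝ) := by push_cast; ring
        have e2 : a - (a - y2 + (i1 : ℝ)) = y2 + ((-i1 : ℤ) : ℝ) := by push_cast; ring
        have e3 : a - (a - y3 + (i3 : ℝ)) = y3 + ((-i3 : ℤ) : ℝ) := by push_cast; ring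
        rw [e1, e2, e3] at hE'
        exact hE')
    rw [I_refl h2, I_refl h1, I_refl h3] at this
    linarith

end Pool.Agent.TurnOne
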