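import Pool.Agent.TurnOne.Geo

/-! Product sets inside a turned unit triangle modulo the lattice. -/

set_option autoImplicit false

namespace Pool.Agent.TurnOne

open MeasureTheory Set

/-- `S1 x S2 x S3` (in the plane `y1+y2+y3 = a+q`) lies in the triangle modulo the lattice -/
structure Cov (a q : ℝ) (S1 S2 S3 : Set ℝ) : Prop where
  o1 : IsOpen S1
  o2 : IsOpen S2
  o3 : IsOpen S3
  p1 : Per S1
  p2 : Per S2
  p3 : Per S3
  cov : ∀ y1 ∈ S1, ∀ y2 ∈ S2, ∀ y3 ∈ S3, y1 + y2 + y3 = a + q →
    ∃ i1 i2 i3 : ℤ, InE a q (y1 + i1) (y2 + i2) (y3 + i3)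

variable {a q r : ℝ} {S1 S2 S3 : Set ℝ}

theorem Cov.cyc (C : Cov a q S1 S2 S3) : Cov a q S2 S3 S1 where
  o1 := C.o2
  o2 := C.o3
  o3 := C.o1
  p1 := C.p2
  p2 := C.p3
  p3 := C.p1
  cov := by
    intro y2 h2 y3 h3 y1 h1 hs
    obtain ⟨i1, i2, i3, h⟩ := C.cov y1 h1 y2 h2 y3 h3 (by linarith)
    exact ⟨i2, i3, i1, h.cyc⟩

theorem Cov.fib (C : Cov a q S1 S2 S3) {t : ℝ} (ht : t ∈ S1) {J : Set ℝ}
    (mJ : MeasurableSet J) (fJ : volume J ≠ ⊤)
    (hJ : ∀ (i1 : ℤ) (y : ℝ), y ∈ S3 → InE a q (t + i1) (a + q - (t + i1) - y) y → y ∈ J) :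
    sg S3 + sg S2 - 1 ≤ (volume J).toReal := by
  have h1 := fibre_ge (S := S3) C.o2.measurableSet C.p2 (a + q - t)
  refine h1.trans (ENNReal.toReal_mono fJ ?_)
  apply vol_le_of_shift (p := 0) mJ
  · rintro y ⟨hy, _⟩
    simpa using hy
  · rintro y ⟨_, hy3, hy2⟩
    obtain ⟨i1, i2, i3, h⟩ := C.cov t ht _ hy2 y hy3 (by ring)
    refine ⟨i3, hJ i1 _ (C.p3 _ hy3 _) ?_⟩
    have h2 := h.1
    have e : a + q - (t + i1) - (y + i3) = a + q - t - y + i2 := by linarith
    rw [e]
    exact h

/-- `g` is at most the length of the chord of the triangle over the residue of `t` -/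
def CB (a q t g : ℝ) : Prop := ∀ J : Set ℝ, MeasurableSet J → volume J ≠ ⊤ →
    (∀ (i1 : ℤ) (y : ℝ), InE a q (t + i1) (a + q - (t + i1) - y) y → y ∈ J) →
    g ≤ (volume J).toReal

theorem Cov.cb (C : Cov a q S1 S2 S3) {t : ℝ} (ht : t ∈ S1) :
    CB a q t (sg S3 + sg S2 - 1) :=
  fun _ mJ fJ hJ => C.fib ht mJ fJ fun i1 y _ h => hJ i1 y h

theorem toReal_Icc (l u : ℝ) : (volume (Icc l u)).toReal = max (u - l) 0 := by
  rw [Real.volume_Icc, ENNReal.toReal_ofReal']

theorem CB.mid {t g : ℝ} (C : CB a q t g) (P : Par a q r) (h1 : a - 1 < t)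
    (h2 : t < 1) : g ≤ t / (a * q) ∧ g ≤ (a - t) / (a * r) := by
  have hlt := P.lt_six
  have h0 := P.one_lt
  have hi : ∀ (i1 : ℤ) (y2 y : ℝ), InE a q (t + i1) y2 y → i1 = 0 := by
    intro i1 y2 y h
    have e1 := h.nonneg P
    have e2 := h.le_a P
    have e3 : (-1 : ℝ) < i1 := by linarith
    have e4 : (i1 : ℝ) < 1 := by linarith
    have e5 : (-1 : ℤ) < i1 := by exact_mod_cast e3
    have e6 : i1 < 1 := by exact_mod_cast e4
    omega
  have hpos := P.pos
  have hq := P.hq
  have hr := P.hr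
  constructor
  · have h3 := C (Icc (a - a * t / q) (a - t * r / a)) measurableSet_Icc
      (by simp) (by
        intro i1 y h
        have e := hi i1 _ _ h
        subst e
        have e0 : t + ((0 : ℤ) : ℝ) = t := by simp
        rw [e0] at h
        exact ⟨h.lo1_le P, h.le_hi P⟩)
    rw [toReal_Icc, len_lo P] at h3
    rwa [max_eq_left (by have : 0 ≤ t := by linarith
                         positivity)] at h3
  · have h3 := C (Icc (q * (t - q) / r) (a - t * r / a)) measurableSet_Icc
      (by simp) (by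
        intro i1 y h
        have e := hi i1 _ _ h
        subst e
        have e0 : t + ((0 : ℤ) : ℝ) = t := by simp
        rw [e0] at h
        exact ⟨h.lo2_le P, h.le_hi P⟩)
    rw [toReal_Icc, len_hi P] at h3
    rwa [max_eq_left (by have : 0 ≤ a - t := by linarith
                         positivity)] at h3

theorem toReal_union (A B : Set ℝ) (hA : volume A ≠ ⊤) (hB : volume B ≠ ⊤) :
    (volume (A ∪ B)).toReal ≤ (volume A).toReal + (volume B).toReal := by
  rw [← ENNReal.toReal_add hA hB]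
  exact ENNReal.toReal_mono (by simp [hA, hB]) (measure_union_le A B)

theorem CB.wrap {t g : ℝ} (C : CB a q t g) (P : Par a q r) (h1 : 1 ≤ t)
    (h2 : t ≤ a) : g ≤ (a - t) / (a * r) + (t - 1) / (a * q) := by
  have hlt := P.lt_six
  have h0 := P.one_lt
  have hpos := P.pos
  have hq := P.hq
  have hr := P.hr
  have h3 := C (Icc (q * (t - q) / r) (a - t * r / a) ∪
      Icc (a - a * (t - 1) / q) (a - (t - 1) * r / a)) (measurableSet_Icc.union measurableSet_Icc)
      (by simp) (by
        intro i1 y h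
        have e1 := h.nonneg P
        have e2 := h.le_a P
        have e3 : (-2 : ℝ) < i1 := by linarith
        have e4 : (i1 : ℝ) < 1 := by linarith
        have e5 : (-2 : ℤ) < i1 := by exact_mod_cast e3
        have e6 : i1 < 1 := by exact_mod_cast e4
        have e7 : i1 = 0 ∨ i1 = -1 := by omega
        rcases e7 with e | e
        · subst e
          have e0 : t + ((0 : ℤ) : ℝ) = t := by simp
          rw [e0] at h
          exact Or.inl ⟨h.lo2_le P, h.le_hi P⟩
        · subst e
          have e0 : t + ((-1 : ℤ) : ℝ) = t - 1 := by push_cast; ring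
          rw [e0] at h
          exact Or.inr ⟨h.lo1_le P, h.le_hi P⟩)
  refine h3.trans ((toReal_union _ _ (by simp) (by simp)).trans ?_)
  rw [toReal_Icc, toReal_Icc, len_hi P, len_lo P]
  apply add_le_add
  · rw [max_eq_left]
    have : 0 ≤ a - t := by linarith
    positivity
  · rw [max_eq_left]
    have : 0 ≤ t - 1 := by linarith
    positivity

/-- the wrapped chord is short -/
theorem wrap_lt (P : Par a q r) {t g : ℝ} (h1 : 1 ≤ t) (h2 : t ≤ a)
    (hg : g ≤ (a - t) / (a * r) + (t - 1) / (a * q)) : g * (a + 1) < 1 := by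
  have h0 := P.one_lt
  have hpos := P.pos
  have hq := P.hq
  have hr := P.hr
  have ha := P.ha
  have hm := P.mul
  have e1 : ((a - t) / (a * r) + (t - 1) / (a * q)) * (a * (q * r)) =
      q * (a - t) + r * (t - 1) := by
    field_simp
  have e2 : g * (a * (q * r)) ≤ q * (a - t) + r * (t - 1) := by
    rw [← e1]
    exact mul_le_mul_of_nonneg_right hg (by positivity)
  have e3 : q * (a - t) + r * (t - 1) < a * (a - 1) := by
    have : q * (a - t) + r * (t - 1) = a * (a - 1) - r * (a - t) - q * (t - 1) := by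
      rw [show a * (a - 1) = (q + r) * (a - t) + (q + r) * (t - 1) by rw [← ha]; ring]
      ring
    rw [this]
    rcases eq_or_lt_of_le h1 with h | h
    · have : 0 < r * (a - t) := mul_pos hr (by linarith)
      have : 0 ≤ q * (t - 1) := mul_nonneg hq.le (by linarith)
      linarith
    · have : 0 ≤ r * (a - t) := mul_nonneg hr.le (by linarith)
      have : 0 < q * (t - 1) := mul_pos hq (by linarith)
      linarith
  have e4 : (g * (a + 1)) * (a * (a - 1)) < 1 * (a * (a - 1)) := by
    have : (g * (a + 1)) * (a * (a - 1)) = g * (a * (q * r)) := by rw [hm]; ring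
    rw [this]; linarith
  exact lt_of_mul_lt_mul_right e4 (by
    have : 0 ≤ a - 1 := by linarith
    positivity)

theorem wrap_le (P : Par a q r) (hqr : q ≤ r) {t g : ℝ} (h2 : t ≤ a)
    (hg : g ≤ (a - t) / (a * r) + (t - 1) / (a * q)) : a * ((a + 1) * g) ≤ r := by
  have h0 := P.one_lt
  have hpos := P.pos
  have hq := P.hq
  have hr := P.hr
  have hm := P.mul
  have e1 : ((a - t) / (a * r) + (t - 1) / (a * q)) * (a * (q * r)) =
      q * (a - t) + r * (t - 1) := by
    field_simp
  have e2 : g * (a * (q * r)) ≤ q * (a - t) + r * (t - 1) := by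
    rw [← e1]
    exact mul_le_mul_of_nonneg_right hg (by positivity)
  have e3 : q * (a - t) + r * (t - 1) ≤ r * (a - 1) := by
    have : 0 ≤ (r - q) * (a - t) := mul_nonneg (by linarith) (by linarith)
    nlinarith
  have e4 : (a * ((a + 1) * g)) * (a - 1) ≤ r * (a - 1) := by
    have : (a * ((a + 1) * g)) * (a - 1) = g * (a * (q * r)) := by rw [hm]; ring
    rw [this]; linarith
  exact le_of_mul_le_mul_right e4 (by linarith)

/-- lemma (i) -/
theorem small (P : Par a q r) {S : Set ℝ} (mS : MeasurableSet S) (pS : Per S) {g : ℝ}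
    (hg : 1 - g < sg S) (h0S : 0 < sg S) (h : ∀ t ∈ S, CB a q t g) :
    g * (a + 1) < 1 := by
  have h0 := P.one_lt
  have hpos := P.pos
  have hq := P.hq
  have hr := P.hr
  by_contra hcon
  have hsub : S ∩ Ioo (a - 1) (a - 1 + 1) ⊆ Icc (a * q * g) (a - a * r * g) := by
    rintro t ⟨ht, h1, h2⟩
    rw [sub_add_cancel] at h2
    rcases lt_or_ge t 1 with h3 | h3
    · obtain ⟨h4, h5⟩ := (h t ht).mid P h1 h3
      rw [le_div_iff₀ (by positivity)] at h4 h5
      constructor <;> linarith
    · exact absurd (wrap_lt P h3 h2.le ((h t ht).wrap P h3 h2.le)) hcon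
  have h1 : sg S ≤ max (a - a * r * g - a * q * g) 0 := by
    rw [sg_eq' mS pS (a - 1), ← toReal_Icc]
    exact ENNReal.toReal_mono (by simp) (measure_mono hsub)
  have h2 : a - a * r * g - a * q * g = a - a ^ 2 * g := by
    have : a * r * g + a * q * g = a * (q + r) * g := by ring
    rw [← P.ha] at this
    linarith [this, show a * a * g = a ^ 2 * g by ring]
  rw [h2] at h1
  have h3 : 0 < a - a ^ 2 * g := by
    by_contra hc
    rw [max_eq_right (by linarith)] at h1
    linarith
  rw [max_eq_left h3.le] at h1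
  apply hcon
  have h4 : (g * (a + 1)) * (a - 1) < 1 * (a - 1) := by nlinarith
  exact lt_of_mul_lt_mul_right h4 (by linarith)

theorem Cov.g_small (C : Cov a q S1 S2 S3) (P : Par a q r) (hs : 2 < sg S1 + sg S2 + sg S3) :
    (a + 1) * (sg S3 + sg S2 - 1) < 1 := by
  have h1 := sg_le_one S2
  have h2 := sg_le_one S3
  have h := small P C.o1.measurableSet C.p1 (g := sg S3 + sg S2 - 1) (by linarith) (by linarith)
    (fun t ht => C.cb ht)
  linarith

end Pool.Agent.TurnOne
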