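import Pool.Agent.TurnOne.FloorSum

/-! Counting lattice translates. -/

set_option autoImplicit false

namespace Pool.Agent.TurnOne

open Set Pool.Agent.TriCov

/-- upper bound for the number of lattice translates in a closed unit triangle -/
theorem cnt_le (x y : ℝ) (F : Finset (ℤ × ℤ))
    (h : ∀ l ∈ F, 0 ≤ x + l.1 ∧ 0 ≤ y + l.2 ∧ (x + l.1) + (y + l.2) ≤ 1) :
    (F.card : ℤ) ≤ 1 + (⌊x⌋ + ⌊x⌋ + (⌊-x⌋ + 1)) + ⌊y⌋ + (1 + ⌊-(x + y)⌋) := by
  set X := ⌊x⌋ with hX
  set Y := ⌊y⌋ with hY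
  set Z := ⌊-(x + y)⌋ with hZ
  set X' := ⌊-x⌋ with hX'
  have f1 : (X : ℝ) ≤ x := Int.floor_le x
  have f2 : (Y : ℝ) ≤ y := Int.floor_le y
  have g1 : x < X + 1 := Int.lt_floor_add_one x
  have g2 : y < Y + 1 := Int.lt_floor_add_one y
  have h1 : ∀ l ∈ F, 0 ≤ l.1 + X ∧ 0 ≤ l.2 + Y ∧ (l.1 + X) + (l.2 + Y) ≤ 1 + Z + X + Y := by
    intro l hl
    obtain ⟨a1, a2, a3⟩ := h l hl
    have b1 : -l.1 ≤ X := Int.le_floor.2 (by push_cast; linarith)
    have b2 : -l.2 ≤ Y := Int.le_floor.2 (by push_cast; linarith)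
    have b3 : l.1 + l.2 - 1 ≤ Z := Int.le_floor.2 (by push_cast; linarith)
    refine ⟨by linarith, by linarith, by linarith⟩
  have hZ1 : Z ≤ -(X + Y) := by
    have : (Z : ℝ) ≤ -(x + y) := Int.floor_le _
    have h2 : (Z : ℝ) ≤ ((-(X + Y) : ℤ) : ℝ) := by push_cast; linarith
    exact_mod_cast h2
  have hZ2 : -(X + Y) - 2 ≤ Z := Int.le_floor.2 (by push_cast; linarith)
  have hX1 : -X - 1 ≤ X' := Int.le_floor.2 (by push_cast; linarith)
  rcases lt_trichotomy (1 + Z + X + Y) 0 with hr | hr | hr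
  · have : F = ∅ := by
      rw [Finset.eq_empty_iff_forall_notMem]
      intro l hl
      obtain ⟨a1, a2, a3⟩ := h1 l hl
      omega
    rw [this, Finset.card_empty]
    push_cast
    omega
  · have hsub : F ⊆ {((-X, -Y) : ℤ × ℤ)} := by
      intro l hl
      obtain ⟨a1, a2, a3⟩ := h1 l hl
      rw [Finset.mem_singleton]
      ext
      · simp only; omega
      · simp only; omega
    have := Finset.card_le_card hsub
    rw [Finset.card_singleton] at this
    omega
  · have hr1 : 1 + Z + X + Y = 1 := by omega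
    have hsub : F ⊆ {((-X, -Y) : ℤ × ℤ), (1 - X, -Y), (-X, 1 - Y)} := by
      intro l hl
      obtain ⟨a1, a2, a3⟩ := h1 l hl
      simp only [Finset.mem_insert, Finset.mem_singleton, Prod.ext_iff]
      omega
    have h3 := (Finset.card_le_card hsub).trans Finset.card_le_three
    have hxX : X' = -X := by
      have e1 : (Z : ℝ) ≤ -(x + y) := Int.floor_le _
      have e2 : Z = -(X + Y) := by omega
      rw [e2] at e1
      push_cast at e1
      have e3 : x = X := le_antisymm (by linarith) f1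
      rw [hX', e3, ← Int.cast_neg, Int.floor_intCast]
    omega

/-- triangular sets -/
theorem tri_set (n : ℕ) : ∃ F : Finset (ℕ × ℕ), (∀ l ∈ F, l.1 + l.2 ≤ n) ∧
    2 * F.card = (n + 1) * (n + 2) := by
  induction n with
  | zero => exact ⟨{(0, 0)}, by simp, by simp⟩
  | succ n ih =>
    obtain ⟨F, h1, h2⟩ := ih
    refine ⟨F ∪ Finset.HasAntidiagonal.antidiagonal (n + 1), ?_, ?_⟩
    · intro l hl
      rcases Finset.mem_union.1 hl with h | h
      · have := h1 l h; omega
      · rw [Finset.HasAntidiagonal.mem_antidiagonal] at h; omega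
    · rw [Finset.card_union_of_disjoint, Finset.Nat.card_antidiagonal]
      · nlinarith
      · rw [Finset.disjoint_left]
        intro l hl hl'
        rw [Finset.HasAntidiagonal.mem_antidiagonal] at hl'
        have := h1 l hl
        omega

/-- lattice translates in the big triangle -/
theorem cnt_ge (X u v : ℝ) (hX : 0 < X) : ∃ F : Finset (ℤ × ℤ),
    (∀ l ∈ F, (u + l.1, v + l.2) ∈ Del X) ∧
    2 * (F.card : ℤ) = (⌊X - (u + v)⌋ + ⌊u⌋ + ⌊v⌋ + 1) * (⌊X - (u + v)⌋ + ⌊u⌋ + ⌊v⌋ + 2) := by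
  set U := ⌊u⌋ with hU
  set V := ⌊v⌋ with hV
  set W := ⌊X - (u + v)⌋ with hW
  have f1 : (U : ℝ) ≤ u := Int.floor_le u
  have f2 : (V : ℝ) ≤ v := Int.floor_le v
  have f3 : (W : ℝ) ≤ X - (u + v) := Int.floor_le _
  have g1 : u < U + 1 := Int.lt_floor_add_one u
  have g2 : v < V + 1 := Int.lt_floor_add_one v
  have g3 : X - (u + v) < W + 1 := Int.lt_floor_add_one _
  have hr : -2 ≤ W + U + V := by
    have : (-3 : ℝ) < W + U + V := by linarith
    have : (-3 : ℤ) < W + U + V := by exact_mod_cast this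
    omega
  rcases lt_or_ge (W + U + V) 0 with h | h
  · refine ⟨∅, by simp, ?_⟩
    rcases (show W + U + V = -1 ∨ W + U + V = -2 by omega) with e | e
    · rw [e]; simp
    · rw [e]; simp
  · obtain ⟨n, hn⟩ := Int.eq_ofNat_of_zero_le h
    obtain ⟨F, h1, h2⟩ := tri_set n
    have hinj : Function.Injective fun l : ℕ × ℕ => (((l.1 : ℤ) - U, (l.2 : ℤ) - V) : ℤ × ℤ) := by
      rintro ⟨i, j⟩ ⟨i', j'⟩ h
      simp only [Prod.mk.injEq] at h
      ext
      · simp only; omega
      · simp only; omega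
    refine ⟨F.image fun l => (((l.1 : ℤ) - U, (l.2 : ℤ) - V) : ℤ × ℤ), ?_, ?_⟩
    · intro l hl
      rw [Finset.mem_image] at hl
      obtain ⟨k, hk, rfl⟩ := hl
      have h3 : ((k.1 + k.2 : ℕ) : ℤ) ≤ W + U + V := by
        rw [hn]; exact_mod_cast h1 k hk
      have h4 : (k.1 : ℝ) + k.2 ≤ W + U + V := by exact_mod_cast h3
      have h5 : (0 : ℝ) ≤ k.1 := Nat.cast_nonneg _
      have h6 : (0 : ℝ) ≤ k.2 := Nat.cast_nonneg _
      refine ⟨?_, ?_, ?_⟩
      · simp only; push_cast; linarith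
      · simp only; push_cast; linarith
      · simp only; push_cast; linarith
    · rw [Finset.card_image_of_injective _ hinj, hn]
      exact_mod_cast h2

end Pool.Agent.TurnOne
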