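import Pool.Agent.TurnOne.UpperD

/-! The exact criterion in the plane. -/

set_option autoImplicit false

namespace Pool.Agent.TurnOne

open Set Pool.Agent.TriCov

/-- `Tri x` is covered by `u` translates of `Tri 1`, `d` translates of `-Tri 1` and one unit
equilateral triangle in arbitrary position and orientation. -/
def Covers (x : ℝ) (u d : ℕ) : Prop :=
  ∃ (P : Fin u → ℂ) (Q : Fin d → ℂ) (A B C : ℂ),
    dist A B = 1 ∧ dist B C = 1 ∧ dist A C = 1 ∧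
    Tri x ⊆ (⋃ i, {p | ∃ w ∈ Tri 1, p = P i + w}) ∪ (⋃ j, {p | ∃ w ∈ Tri 1, p = Q j - w}) ∪
      convexHull ℝ ({A, B, C} : Set ℂ)

/-- The same with an extra triangle which is a translate of `Tri 1` or of `-Tri 1`. -/
def CoversPar (x : ℝ) (u d : ℕ) : Prop :=
  ∃ (P : Fin u → ℂ) (Q : Fin d → ℂ) (A e : ℂ), (e = 1 ∨ e = -1) ∧
    Tri x ⊆ (⋃ i, {p | ∃ w ∈ Tri 1, p = P i + w}) ∪ (⋃ j, {p | ∃ w ∈ Tri 1, p = Q j - w}) ∪
      convexHull ℝ ({A, A + e, A + e * Complex.exp ((Real.pi : ℂ) / 3 * Complex.I)} : Set ℂ)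

theorem hull3 (A B C : ℂ) {s t : ℝ} (hs : 0 ≤ s) (ht : 0 ≤ t) (hst : s + t ≤ 1) :
    (1 - s - t : ℝ) • A + s • B + t • C ∈ convexHull ℝ ({A, B, C} : Set ℂ) := by
  have hconv := convex_convexHull ℝ ({A, B, C} : Set ℂ)
  have h1 := hconv.sum_mem (t := (Finset.univ : Finset (Fin 3)))
    (w := ![1 - s - t, s, t]) (z := ![A, B, C]) ?_ ?_ ?_
  · simpa only [Fin.sum_univ_three, Matrix.cons_val_zero, Matrix.cons_val_one,
      Matrix.cons_val] using h1
  · intro i _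
    fin_cases i
    · simp only [Fin.zero_eta, Matrix.cons_val_zero]; linarith
    · exact hs
    · exact ht
  · simp only [Fin.sum_univ_three, Matrix.cons_val_zero, Matrix.cons_val_one, Matrix.cons_val]
    ring
  · intro i _
    apply subset_convexHull
    fin_cases i <;> simp

theorem ph_zero : ph (0, 0) = 0 := by simp [ph]

theorem norm_ph_sq (p : ℝ × ℝ) : ‖ph p‖ ^ 2 = p.1 ^ 2 + p.1 * p.2 + p.2 ^ 2 := by
  rw [← Complex.normSq_eq_norm_sq, Complex.normSq_apply, pl_ph_re, pl_ph_im]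
  have h : Real.sqrt 3 * Real.sqrt 3 = 3 := Real.mul_self_sqrt (by norm_num)
  linear_combination (p.2 ^ 2 / 4) * h

theorem norm_ph_one {p : ℝ × ℝ} (h : p.1 ^ 2 + p.1 * p.2 + p.2 ^ 2 = 1) : ‖ph p‖ = 1 := by
  have h1 := norm_ph_sq p
  rw [h] at h1
  have h2 : 0 ≤ ‖ph p‖ := norm_nonneg _
  nlinarith

theorem dist_ph_one {p p' : ℝ × ℝ}
    (h : (p.1 - p'.1) ^ 2 + (p.1 - p'.1) * (p.2 - p'.2) + (p.2 - p'.2) ^ 2 = 1) :
    dist (ph p) (ph p') = 1 := by
  rw [dist_eq_norm, ← ph_sub]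
  exact norm_ph_one h

theorem ph_e (z : ℝ × ℝ) (e : ℝ) :
    ph (z.1 + e, z.2) = ph z + (e : ℂ) ∧ ph (z.1, z.2 + e) =
      ph z + (e : ℂ) * Complex.exp ((Real.pi : ℂ) / 3 * Complex.I) := by
  constructor
  · unfold ph; push_cast; ring
  · unfold ph om; push_cast; ring

theorem covers_of_par {x : ℝ} {u d : ℕ} (h : CoversPar x u d) : Covers x u d := by
  obtain ⟨P, Q, A, e, he, h⟩ := h
  have h0 : ‖e‖ = 1 := by rcases he with h | h <;> rw [h] <;> simp
  have h1 : ‖Complex.exp ((Real.pi : ℂ) / 3 * Complex.I)‖ = 1 := by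
    rw [Complex.norm_exp]; simp
  have h2 : ‖1 - Complex.exp ((Real.pi : ℂ) / 3 * Complex.I)‖ = 1 := by
    have := dist_ph_one (p := (1, 0)) (p' := (0, 1)) (by norm_num)
    rw [dist_eq_norm] at this
    have e1 : ph (1, 0) - ph (0, 1) = 1 - Complex.exp ((Real.pi : ℂ) / 3 * Complex.I) := by
      unfold ph om; push_cast; ring
    rwa [e1] at this
  refine ⟨P, Q, A, A + e, A + e * Complex.exp ((Real.pi : ℂ) / 3 * Complex.I), ?_, ?_, ?_, h⟩
  · rw [dist_eq_norm, show A - (A + e) = -e by ring, norm_neg, h0]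
  · rw [dist_eq_norm, show A + e - (A + e * Complex.exp ((Real.pi : ℂ) / 3 * Complex.I)) =
      e * (1 - Complex.exp ((Real.pi : ℂ) / 3 * Complex.I)) by ring, norm_mul, h0, h2, one_mul]
  · rw [dist_eq_norm, show A - (A + e * Complex.exp ((Real.pi : ℂ) / 3 * Complex.I)) =
      -(e * Complex.exp ((Real.pi : ℂ) / 3 * Complex.I)) by ring, norm_neg, norm_mul, h0, h1,
      one_mul]

theorem par_of_covX {x : ℝ} (hx : 0 ≤ x) {u d : ℕ} (h : CovX x u d) : CoversPar x u d := by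
  obtain ⟨A, B, ⟨z, b⟩, h⟩ := h
  -- the extra triangle
  obtain ⟨e, he⟩ : ∃ e : ℝ, (e = 1 ∧ b = true) ∨ (e = -1 ∧ b = false) := by
    cases b
    · exact ⟨-1, Or.inr ⟨rfl, rfl⟩⟩
    · exact ⟨1, Or.inl ⟨rfl, rfl⟩⟩
  refine ⟨fun i => ph (A i), fun i => ph (B i), ph z, (e : ℂ), ?_, ?_⟩
  · rcases he with ⟨h, _⟩ | ⟨h, _⟩ <;> rw [h] <;> simp
  · rw [← (ph_e z e).1, ← (ph_e z e).2]
    intro y hy
    obtain ⟨p, hp, rfl⟩ := tri_sub hx hy
    rcases h p hp with ⟨i, hi⟩ | ⟨i, hi⟩ | hc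
    · left; left
      rw [mem_Pc_true] at hi
      refine mem_iUnion.2 ⟨i, ph (p - A i), del_sub one_pos ⟨?_, ?_, ?_⟩, ?_⟩
      · simp only [Prod.fst_sub]; linarith [hi.1]
      · simp only [Prod.snd_sub]; linarith [hi.2.1]
      · simp only [Prod.fst_sub, Prod.snd_sub]; linarith [hi.2.2]
      · rw [ph_sub]; ring
    · left; right
      rw [mem_Pc_false] at hi
      refine mem_iUnion.2 ⟨i, ph (B i - p), del_sub one_pos ⟨?_, ?_, ?_⟩, ?_⟩
      · simp only [Prod.fst_sub]; linarith [hi.1]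
      · simp only [Prod.snd_sub]; linarith [hi.2.1]
      · simp only [Prod.fst_sub, Prod.snd_sub]; linarith [hi.2.2]
      · rw [ph_sub]; ring
    · right
      obtain ⟨s, t, hs, ht, hst, e1, e2⟩ : ∃ s t : ℝ, 0 ≤ s ∧ 0 ≤ t ∧ s + t ≤ 1 ∧
          p.1 = z.1 + s * e ∧ p.2 = z.2 + t * e := by
        rcases he with ⟨h1, h2⟩ | ⟨h1, h2⟩
        · rw [h2, mem_Pc_true] at hc
          exact ⟨p.1 - z.1, p.2 - z.2, by linarith [hc.1], by linarith [hc.2.1],
            by linarith [hc.2.2], by rw [h1]; ring, by rw [h1]; ring⟩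
        · rw [h2, mem_Pc_false] at hc
          exact ⟨z.1 - p.1, z.2 - p.2, by linarith [hc.1], by linarith [hc.2.1],
            by linarith [hc.2.2], by rw [h1]; ring, by rw [h1]; ring⟩
      have h3 := hull3 (ph z) (ph (z.1 + e, z.2)) (ph (z.1, z.2 + e)) hs ht hst
      rw [← ph_smul, ← ph_smul, ← ph_smul, ← ph_add, ← ph_add] at h3
      have h4 : (1 - s - t : ℝ) • z + s • ((z.1 + e, z.2) : ℝ × ℝ) +
          t • ((z.1, z.2 + e) : ℝ × ℝ) = p := by
        ext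
        · simp only [Prod.fst_add, Prod.smul_fst, smul_eq_mul]; rw [e1]; ring
        · simp only [Prod.snd_add, Prod.smul_snd, smul_eq_mul]; rw [e2]; ring
      rw [h4] at h3
      exact h3

/-- the exact criterion -/
theorem covers_iff {x : ℝ} (hx : 0 < x) (u d : ℕ) (hud : d ≤ u)
    (hx1 : (u : ℝ) - d - 1 ≤ x) (hx2 : x ≤ (u : ℝ) - d + 1) :
    (Covers x u d ↔ 2 * ((u : ℝ) - d) * x - ((u : ℝ) - d) ^ 2 ≤ u + d) ∧
      (Covers x u d ↔ CoversPar x u d) := by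
  have hA : Covers x u d → 2 * ((u : ℝ) - d) * x - ((u : ℝ) - d) ^ 2 ≤ u + d := by
    rintro ⟨P, Q, A, B, C, h1, h2, h3, h⟩
    exact main_plane hx u d P Q A B C h1 h2 h3 h
  have hB : 2 * ((u : ℝ) - d) * x - ((u : ℝ) - d) ^ 2 ≤ u + d → CoversPar x u d := by
    intro h
    apply par_of_covX hx.le
    obtain ⟨j, hj⟩ := Nat.exists_eq_add_of_le hud
    have hjr : (u : ℝ) - d = j := by rw [hj]; push_cast; ring
    rw [hjr] at h hx1 hx2
    rcases Nat.eq_zero_or_pos j with h0 | h0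
    · refine ⟨fun _ => (0, 0), fun _ => (0, 0), ((0, 0), true), fun p hp => Or.inr (Or.inr ?_)⟩
      rw [h0] at hx2
      norm_num at hx2
      rw [mem_Pc_true]
      exact ⟨hp.1, hp.2.1, by simp only; linarith [hp.2.2]⟩
    · exact sharp j h0 x hx1 hx2 u d hj h
  exact ⟨⟨hA, fun h => covers_of_par (hB h)⟩, ⟨fun h => hB (hA h), covers_of_par⟩⟩

end Pool.Agent.TurnOne
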