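import Pool.Agent.TurnOne.Abs
import Pool.Agent.TriCov.Lower

/-! Sums of floor functions. -/

set_option autoImplicit false

namespace Pool.Agent.TurnOne

open MeasureTheory Set

/-- integer valued, `f (t+1) = f t + ρ`, upper semicontinuous, mean `μ` on `[0,1]` -/
structure FS (f : ℝ → ℤ) (ρ : ℤ) (μ : ℝ) : Prop where
  shift : ∀ t, f (t + 1) = f t + ρ
  usc : ∀ m : ℤ, IsOpen {t | f t < m}
  bd : ∃ M : ℤ, ∀ t, 0 ≤ t → t ≤ 1 → -M ≤ f t ∧ f t ≤ M
  mean : ∫ t in (0 : ℝ)..1, (f t : ℝ) = μ

theorem usc_meas {f : ℝ → ℤ} (h : ∀ m : ℤ, IsOpen {t | f t < m}) :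
    Measurable fun t => (f t : ℝ) := by
  have hf : Measurable f := by
    apply measurable_to_countable'
    intro m
    have : f ⁻¹' {m} = {t | f t < m + 1} \ {t | f t < m} := by
      ext t
      simp only [mem_preimage, mem_singleton_iff, mem_sdiff, mem_ofPred_eq]
      omega
    rw [this]
    exact (h _).measurableSet.diff (h _).measurableSet
  exact (measurable_from_top (f := fun n : ℤ => (n : ℝ))).comp hf

variable {f g : ℝ → ℤ} {ρ ρ' : ℤ} {μ μ' : ℝ}

theorem FS.ii (h : FS f ρ μ) : IntervalIntegrable (fun t => (f t : ℝ)) volume 0 1 := by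
  obtain ⟨M, hM⟩ := h.bd
  rw [intervalIntegrable_iff_integrableOn_Icc_of_le zero_le_one]
  refine Measure.integrableOn_of_bounded (M := M) (by simp) (usc_meas h.usc).aestronglyMeasurable
    ?_
  rw [ae_restrict_iff' measurableSet_Icc]
  refine Filter.Eventually.of_forall fun t ht => ?_
  rw [Real.norm_eq_abs, abs_le]
  have := hM t ht.1 ht.2
  constructor
  · exact_mod_cast this.1
  · exact_mod_cast this.2

theorem FS.add (hf : FS f ρ μ) (hg : FS g ρ' μ') : FS (fun t => f t + g t) (ρ + ρ') (μ + μ') where
  shift := by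
    intro t
    rw [hf.shift, hg.shift]
    ring
  usc := by
    intro m
    have : {t | f t + g t < m} = ⋃ k : ℤ, ({t | f t < k} ∩ {t | g t < m - k + 1}) := by
      ext t
      simp only [mem_ofPred_eq, mem_iUnion, mem_inter_iff]
      constructor
      · intro h; exact ⟨f t + 1, by omega, by omega⟩
      · rintro ⟨k, h1, h2⟩; omega
    rw [this]
    exact isOpen_iUnion fun k => (hf.usc _).inter (hg.usc _)
  bd := by
    obtain ⟨M, hM⟩ := hf.bd
    obtain ⟨M', hM'⟩ := hg.bd
    refine ⟨M + M', fun t h0 h1 => ?_⟩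
    have e1 := hM t h0 h1
    have e2 := hM' t h0 h1
    constructor <;> omega
  mean := by
    have : (fun t : ℝ => ((f t + g t : ℤ) : ℝ)) = fun t => (f t : ℝ) + (g t : ℝ) := by
      funext t; push_cast; rfl
    rw [this, intervalIntegral.integral_add hf.ii hg.ii, hf.mean, hg.mean]

theorem FS.const (c : ℤ) : FS (fun _ => c) 0 c where
  shift := by intro t; simp
  usc := by intro m; exact isOpen_const
  bd := ⟨|c|, fun _ _ _ => ⟨neg_abs_le c, le_abs_self c⟩⟩
  mean := by simp

theorem FS.congr (h : FS f ρ μ) (h1 : ρ = ρ') (h2 : μ = μ') : FS f ρ' μ' := by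
  subst h1 h2; exact h

theorem FS.sum {ι : Type*} (s : Finset ι) {F : ι → ℝ → ℤ} {ρ : ι → ℤ} {μ : ι → ℝ}
    (h : ∀ i, FS (F i) (ρ i) (μ i)) :
    FS (fun t => ∑ i ∈ s, F i t) (∑ i ∈ s, ρ i) (∑ i ∈ s, μ i) := by
  classical
  induction s using Finset.induction_on with
  | empty => simpa using FS.const 0
  | insert i s hi ih =>
    have := (h i).add ih
    rw [Finset.sum_insert hi, Finset.sum_insert hi]
    have e : (fun t => ∑ k ∈ insert i s, F k t) = fun t => F i t + ∑ k ∈ s, F k t := by
      funext t; rw [Finset.sum_insert hi]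
    rw [e]
    exact this

theorem FS.nmul (h : FS f ρ μ) (j : ℕ) : FS (fun t => j * f t) (j * ρ) (j * μ) := by
  have := FS.sum (Finset.range j) (F := fun _ => f) (ρ := fun _ => ρ) (μ := fun _ => μ)
    (fun _ => h)
  simpa using this

theorem FS.up (c : ℝ) : FS (fun t => ⌊t - c⌋) 1 (-c) where
  shift := by
    intro t
    rw [show t + 1 - c = t - c + 1 by ring, Int.floor_add_one]
  usc := by
    intro m
    have : {t : ℝ | ⌊t - c⌋ < m} = {t : ℝ | t - c < m} := by
      ext t
      simp only [mem_ofPred_eq]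
      exact Int.floor_lt
    rw [this]
    exact isOpen_lt (continuous_id.sub continuous_const) continuous_const
  bd := by
    refine ⟨|⌊-c⌋| + 2, fun t h0 h1 => ?_⟩
    have e1 : ⌊-c⌋ ≤ ⌊t - c⌋ := Int.floor_le_floor (by linarith)
    have e2 : ⌊t - c⌋ ≤ ⌊-c⌋ + 1 := by
      rw [← Int.floor_add_one]
      exact Int.floor_le_floor (by linarith)
    have e3 := neg_abs_le ⌊-c⌋
    have e4 := le_abs_self ⌊-c⌋
    constructor <;> omega
  mean := by
    have e : (fun t : ℝ => ((⌊t - c⌋ : ℤ) : ℝ)) =
        fun t : ℝ => (t - c) - Int.fract (-c + ((1 : ℤ) : ℝ) * t) := by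
      funext t
      have : -c + ((1 : ℤ) : ℝ) * t = t - c := by push_cast; ring
      rw [this]
      linarith [Int.self_sub_floor (t - c)]
    rw [e, intervalIntegral.integral_sub, Pool.Agent.TriCov.integral_fract_affine _ _ one_ne_zero]
    · have hid : IntervalIntegrable (fun x : ℝ => x) volume 0 1 :=
        continuous_id.intervalIntegrable _ _
      rw [intervalIntegral.integral_sub hid intervalIntegrable_const,
        integral_id]
      simp only [intervalIntegral.integral_const, smul_eq_mul]
      norm_num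
    · exact (continuous_id.sub continuous_const).intervalIntegrable _ _
    · exact Pool.Agent.TriCov.fract_comp_ii (fun t => -c + ((1 : ℤ) : ℝ) * t)
        (measurable_const.add (measurable_const.mul measurable_id))

theorem FS.down (c : ℝ) : FS (fun t => ⌊c - t⌋) (-1) (c - 1) where
  shift := by
    intro t
    rw [show c - (t + 1) = c - t - 1 by ring, Int.floor_sub_one]
    ring
  usc := by
    intro m
    have : {t : ℝ | ⌊c - t⌋ < m} = {t : ℝ | c - t < m} := by
      ext t
      simp only [mem_ofPred_eq]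
      exact Int.floor_lt
    rw [this]
    exact isOpen_lt (continuous_const.sub continuous_id) continuous_const
  bd := by
    refine ⟨|⌊c⌋| + 2, fun t h0 h1 => ?_⟩
    have e1 : ⌊c - t⌋ ≤ ⌊c⌋ := Int.floor_le_floor (by linarith)
    have e2 : ⌊c⌋ - 1 ≤ ⌊c - t⌋ := by
      rw [← Int.floor_sub_one]
      exact Int.floor_le_floor (by linarith)
    have e3 := neg_abs_le ⌊c⌋
    have e4 := le_abs_self ⌊c⌋
    constructor <;> omega
  mean := by
    have e : (fun t : ℝ => ((⌊c - t⌋ : ℤ) : ℝ)) =
        fun t : ℝ => (c - t) - Int.fract (c + ((-1 : ℤ) : ℝ) * t) := by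
      funext t
      have : c + ((-1 : ℤ) : ℝ) * t = c - t := by push_cast; ring
      rw [this]
      linarith [Int.self_sub_floor (c - t)]
    rw [e, intervalIntegral.integral_sub,
      Pool.Agent.TriCov.integral_fract_affine _ _ (by norm_num)]
    · have hid : IntervalIntegrable (fun x : ℝ => x) volume 0 1 :=
        continuous_id.intervalIntegrable _ _
      rw [intervalIntegral.integral_sub intervalIntegrable_const hid,
        integral_id]
      simp only [intervalIntegral.integral_const, smul_eq_mul]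
      norm_num
      ring
    · exact (continuous_const.sub continuous_id).intervalIntegrable _ _
    · exact Pool.Agent.TriCov.fract_comp_ii (fun t => c + ((-1 : ℤ) : ℝ) * t)
        (measurable_const.add (measurable_const.mul measurable_id))

theorem FS.fn (h : FS f 0 μ) : Fn f where
  per := by intro t; rw [h.shift, add_zero]
  usc := h.usc
  bdd := by
    obtain ⟨M, hM⟩ := h.bd
    refine ⟨M, fun t => ?_⟩
    have hp : Function.Periodic f 1 := by intro t; rw [h.shift, add_zero]
    have e : f t = f (Int.fract t) := by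
      have := hp.sub_int_mul_eq ⌊t⌋ (x := t)
      rw [mul_one, Int.self_sub_floor] at this
      exact this.symm
    rw [e]
    exact hM _ (Int.fract_nonneg t) (Int.fract_lt_one t).le

theorem FS.I_eq (h : FS f 0 μ) : I f = μ := h.mean

end Pool.Agent.TurnOne
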