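import Mathlib

/-! Measure of periodic subsets of the line, and the one dimensional Brunn-Minkowski inequality. -/

set_option autoImplicit false

namespace Pool.Agent.TurnOne

open MeasureTheory Set

/-- 1-periodic set -/
def Per (S : Set ℝ) : Prop := ∀ t ∈ S, ∀ i : ℤ, t + i ∈ S

/-- measure per period -/
noncomputable def sg (S : Set ℝ) : ℝ := (volume (S ∩ Ico 0 1)).toReal

theorem vol_le_of_shift {F J : Set ℝ} {p : ℝ} (hJ : MeasurableSet J)
    (hF : F ⊆ Ico p (p + 1)) (h : ∀ y ∈ F, ∃ i : ℤ, y + i ∈ J) : volume F ≤ volume J := by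
  have h1 : F ⊆ ⋃ i : ℤ, (fun y : ℝ => y + i) ⁻¹' (J ∩ Ico (p + i) (p + i + 1)) := by
    intro y hy
    obtain ⟨i, hi⟩ := h y hy
    refine mem_iUnion.2 ⟨i, hi, ?_⟩
    have := hF hy
    exact ⟨by linarith [this.1], by linarith [this.2]⟩
  have h2 : ∀ i : ℤ, volume ((fun y : ℝ => y + i) ⁻¹' (J ∩ Ico (p + i) (p + i + 1))) =
      volume (J ∩ Ico (p + i) (p + i + 1)) := by
    intro i
    exact measure_preimage_add_right volume _ _
  have h3 : Pairwise (Function.onFun Disjoint fun i : ℤ => J ∩ Ico (p + i) (p + i + 1)) := by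
    intro i j hij
    rw [Function.onFun, Set.disjoint_left]
    rintro x ⟨_, hx1⟩ ⟨_, hx2⟩
    apply hij
    have e1 : (i : ℝ) < j + 1 := by linarith [hx1.1, hx2.2]
    have e2 : (j : ℝ) < i + 1 := by linarith [hx2.1, hx1.2]
    have e3 : i < j + 1 := by exact_mod_cast e1
    have e4 : j < i + 1 := by exact_mod_cast e2
    omega
  calc volume F ≤ ∑' i : ℤ, volume ((fun y : ℝ => y + i) ⁻¹' (J ∩ Ico (p + i) (p + i + 1))) :=
        (measure_mono h1).trans (measure_iUnion_le _)
    _ = ∑' i : ℤ, volume (J ∩ Ico (p + i) (p + i + 1)) := by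
        congr 1; funext i; exact h2 i
    _ = volume (⋃ i : ℤ, (J ∩ Ico (p + i) (p + i + 1))) :=
        (measure_iUnion h3 fun i => hJ.inter measurableSet_Ico).symm
    _ ≤ volume J := measure_mono (iUnion_subset fun i => inter_subset_left)

theorem vol_period {S : Set ℝ} (hS : MeasurableSet S) (hp : Per S) (p s : ℝ) :
    volume (S ∩ Ico p (p + 1)) ≤ volume (S ∩ Ico s (s + 1)) := by
  apply vol_le_of_shift (hS.inter measurableSet_Ico) inter_subset_right
  rintro y ⟨hy, hy'⟩
  refine ⟨-⌊y - s⌋, hp y hy _, ?_⟩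
  have h1 := Int.floor_le (y - s)
  have h2 := Int.lt_floor_add_one (y - s)
  push_cast
  exact ⟨by linarith, by linarith⟩

theorem vol_period_eq {S : Set ℝ} (hS : MeasurableSet S) (hp : Per S) (p s : ℝ) :
    volume (S ∩ Ico p (p + 1)) = volume (S ∩ Ico s (s + 1)) :=
  le_antisymm (vol_period hS hp p s) (vol_period hS hp s p)

theorem vol_lt_top (S : Set ℝ) (p s : ℝ) : volume (S ∩ Ico p s) < ⊤ :=
  (measure_mono inter_subset_right).trans_lt (by simp)

theorem sg_eq {S : Set ℝ} (hS : MeasurableSet S) (hp : Per S) (p : ℝ) :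
    sg S = (volume (S ∩ Ico p (p + 1))).toReal := by
  unfold sg
  rw [vol_period_eq hS hp p 0, zero_add]

theorem sg_eq' {S : Set ℝ} (hS : MeasurableSet S) (hp : Per S) (p : ℝ) :
    sg S = (volume (S ∩ Ioo p (p + 1))).toReal := by
  rw [sg_eq hS hp p]
  congr 1
  apply measure_congr
  exact (ae_eq_refl S).inter Ioo_ae_eq_Ico.symm

theorem sg_nonneg (S : Set ℝ) : 0 ≤ sg S := ENNReal.toReal_nonneg

theorem sg_le_one (S : Set ℝ) : sg S ≤ 1 := by
  unfold sg
  have h1 : volume (S ∩ Ico 0 1) ≤ volume (Ico (0 : ℝ) 1) := measure_mono inter_subset_right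
  rw [Real.volume_Ico] at h1
  have h2 := ENNReal.toReal_mono (by simp) h1
  simpa using h2

theorem sg_pos {S : Set ℝ} (hS : IsOpen S) (hp : Per S) (hne : S.Nonempty) : 0 < sg S := by
  obtain ⟨t, ht⟩ := hne
  have h1 : 0 < volume (S ∩ Ioo (t - 1 / 2) (t - 1 / 2 + 1)) := by
    apply IsOpen.measure_pos
    · exact hS.inter isOpen_Ioo
    · exact ⟨t, ht, by constructor <;> linarith⟩
  rw [sg_eq' hS.measurableSet hp (t - 1 / 2)]
  exact ENNReal.toReal_pos h1.ne' (((measure_mono inter_subset_right).trans_lt (by simp)).ne)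

/-- intersection of a periodic set with a reflected one -/
theorem fibre_ge {S T : Set ℝ} (hT : MeasurableSet T) (pT : Per T)
    (d : ℝ) : sg S + sg T - 1 ≤ (volume {y | y ∈ Ico (0 : ℝ) 1 ∧ y ∈ S ∧ d - y ∈ T}).toReal := by
  set A : Set ℝ := S ∩ Ico 0 1 with hA
  set B : Set ℝ := {y | y ∈ Ico (0 : ℝ) 1 ∧ d - y ∈ T} with hB
  have mp : MeasurePreserving (fun y : ℝ => d - y) volume volume :=
    Measure.measurePreserving_sub_left volume d
  have hB' : B = (fun y : ℝ => d - y) ⁻¹' (T ∩ Ioc (d - 1) d) := by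
    ext y
    simp only [hB, mem_ofPred_eq, mem_preimage, mem_inter_iff, mem_Ico, mem_Ioc]
    constructor
    · rintro ⟨⟨h1, h2⟩, h3⟩; exact ⟨h3, by linarith, by linarith⟩
    · rintro ⟨h3, h1, h2⟩; exact ⟨⟨by linarith, by linarith⟩, h3⟩
  have mB : MeasurableSet B := by
    rw [hB']; exact mp.measurable (hT.inter measurableSet_Ioc)
  have vB : volume B = volume (T ∩ Ico 0 1) := by
    rw [hB', mp.measure_preimage (hT.inter measurableSet_Ioc).nullMeasurableSet]
    have e1 : volume (T ∩ Ioc (d - 1) d) = volume (T ∩ Ico (d - 1) (d - 1 + 1)) := by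
      rw [sub_add_cancel]
      apply measure_congr
      exact (ae_eq_refl T).inter Ioo_ae_eq_Ioc.symm |>.trans
        ((ae_eq_refl T).inter Ioo_ae_eq_Ico)
    rw [e1, vol_period_eq hT pT (d - 1) 0, zero_add]
  have hAB : {y | y ∈ Ico (0 : ℝ) 1 ∧ y ∈ S ∧ d - y ∈ T} = A ∩ B := by
    ext y
    simp only [hA, hB, mem_ofPred_eq, mem_inter_iff]
    tauto
  rw [hAB]
  have h1 := measure_union_add_inter A mB (μ := volume)
  have h2 : volume (A ∪ B) ≤ 1 := by
    have : A ∪ B ⊆ Ico 0 1 := by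
      intro y hy
      rcases hy with hy | hy
      · exact hy.2
      · exact hy.1
    refine (measure_mono this).trans ?_
    simp
  have hA1 : volume A ≠ ⊤ := (vol_lt_top _ _ _).ne
  have hB1 : volume B ≠ ⊤ := by rw [vB]; exact (vol_lt_top _ _ _).ne
  have hI : volume (A ∩ B) ≠ ⊤ := ((measure_mono inter_subset_left).trans_lt (vol_lt_top _ _ _)).ne
  have hU : volume (A ∪ B) ≠ ⊤ := (h2.trans_lt (by simp)).ne
  have h3 := congrArg ENNReal.toReal h1
  rw [ENNReal.toReal_add hU hI, ENNReal.toReal_add hA1 hB1] at h3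
  have h4 : (volume (A ∪ B)).toReal ≤ 1 := by
    have := ENNReal.toReal_mono (by simp) h2
    simpa using this
  have h5 : (volume B).toReal = sg T := by rw [vB]; rfl
  have h6 : (volume A).toReal = sg S := rfl
  linarith

/-- one dimensional Brunn-Minkowski -/
theorem brunn {A B : Set ℝ} (hB : MeasurableSet B)
    (nA : A.Nonempty) (nB : B.Nonempty) (bA : BddBelow A) (bB : BddAbove B)
    (fA : volume A ≠ ⊤) (fB : volume B ≠ ⊤) {U : Set ℝ} (hU : ∀ x ∈ A, ∀ y ∈ B, x + y ∈ U)
    (fU : volume U ≠ ⊤) :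
    (volume A).toReal + (volume B).toReal ≤ (volume U).toReal := by
  apply le_of_forall_pos_le_add
  intro δ hδ
  obtain ⟨x0, hx0, hx1⟩ := exists_lt_of_csInf_lt nA (show sInf A < sInf A + δ / 2 by linarith)
  obtain ⟨y0, hy0, hy1⟩ := exists_lt_of_lt_csSup nB (show sSup B - δ / 2 < sSup B by linarith)
  set A' : Set ℝ := (fun z : ℝ => z + (-y0)) ⁻¹' A with hA'
  set B' : Set ℝ := (fun z : ℝ => z + (-x0)) ⁻¹' B with hB'
  have vA : volume A' = volume A := measure_preimage_add_right volume _ _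
  have vB : volume B' = volume B := measure_preimage_add_right volume _ _
  have mB : MeasurableSet B' := (measurable_id.add_const _) hB
  have hsub : A' ∪ B' ⊆ U := by
    rintro z (hz | hz)
    · have := hU _ hz _ hy0
      simpa using this
    · have := hU _ hx0 _ hz
      simpa using this
  have hint : A' ∩ B' ⊆ Icc (sInf A + y0) (sSup B + x0) := by
    rintro z ⟨hz1, hz2⟩
    constructor
    · have := csInf_le bA hz1
      linarith
    · have := le_csSup bB hz2
      linarith
  have h1 := measure_union_add_inter A' mB (μ := volume)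
  have hI : volume (A' ∩ B') ≤ ENNReal.ofReal δ := by
    refine (measure_mono hint).trans ?_
    rw [Real.volume_Icc]
    apply ENNReal.ofReal_le_ofReal
    linarith
  have hI' : volume (A' ∩ B') ≠ ⊤ := (hI.trans_lt ENNReal.ofReal_lt_top).ne
  have hV : volume (A' ∪ B') ≠ ⊤ := ((measure_mono hsub).trans_lt fU.lt_top).ne
  have h3 := congrArg ENNReal.toReal h1
  rw [vA, vB, ENNReal.toReal_add hV hI', ENNReal.toReal_add fA fB] at h3
  have h4 : (volume (A' ∪ B')).toReal ≤ (volume U).toReal :=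
    ENNReal.toReal_mono fU (measure_mono hsub)
  have h5 : (volume (A' ∩ B')).toReal ≤ δ := by
    have := ENNReal.toReal_mono ENNReal.ofReal_ne_top hI
    rwa [ENNReal.toReal_ofReal hδ.le] at this
  linarith

end Pool.Agent.TurnOne
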