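import Pool.Agent.TurnOne.Ineq
import Pool.Agent.TurnOne.Meas

/-! The turned unit triangle in level coordinates. -/

set_option autoImplicit false

namespace Pool.Agent.TurnOne

open MeasureTheory Set

/-- The triangle with vertices `(a,0,q)`, `(q,a,0)`, `(0,q,a)` in the plane `y1+y2+y3 = a+q`. -/
def InE (a q y1 y2 y3 : ℝ) : Prop :=
  y1 + y2 + y3 = a + q ∧ a * q ≤ q * y1 + a * y2 ∧ a * q ≤ q * y2 + a * y3 ∧
    a * q ≤ q * y3 + a * y1

theorem InE.cyc {a q y1 y2 y3 : ℝ} (h : InE a q y1 y2 y3) : InE a q y2 y3 y1 :=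
  ⟨by linarith [h.1], h.2.2.1, h.2.2.2, h.2.1⟩

variable {a q r : ℝ}

theorem InE.le_hi (P : Par a q r) {t y2 y : ℝ} (h : InE a q t y2 y) :
    y ≤ a - t * r / a := by
  have h1 := h.1
  have h2 := h.2.1
  have ha := P.pos
  have e : y2 = a + q - t - y := by linarith
  rw [e] at h2
  have h3 : a * y ≤ a * (a - t * r / a) := by
    have : a * (a - t * r / a) = a ^ 2 - t * r := by field_simp
    rw [this]
    have h4 : t * a = t * q + t * r := by rw [P.ha]; ring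
    nlinarith
  exact le_of_mul_le_mul_left h3 ha

theorem InE.lo1_le (P : Par a q r) {t y2 y : ℝ} (h : InE a q t y2 y) :
    a - a * t / q ≤ y := by
  have h2 := h.2.2.2
  have hq := P.hq
  have h3 : q * (a - a * t / q) ≤ q * y := by
    have : q * (a - a * t / q) = a * q - a * t := by field_simp
    rw [this]; linarith
  exact le_of_mul_le_mul_left h3 hq

theorem InE.lo2_le (P : Par a q r) {t y2 y : ℝ} (h : InE a q t y2 y) :
    q * (t - q) / r ≤ y := by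
  have h1 := h.1
  have h2 := h.2.2.1
  have hr := P.hr
  have e : y2 = a + q - t - y := by linarith
  rw [e] at h2
  rw [div_le_iff₀ hr]
  have h4 : y * a = y * q + y * r := by rw [P.ha]; ring
  nlinarith

theorem InE.nonneg (P : Par a q r) {y1 y2 y3 : ℝ} (h : InE a q y1 y2 y3) : 0 ≤ y1 := by
  have h1 := h.le_hi P
  have h2 := h.lo1_le P
  have ha := P.pos
  have hq := P.hq
  have h3 : a - a * y1 / q ≤ a - y1 * r / a := h2.trans h1
  have h4 : y1 * r / a ≤ a * y1 / q := by linarith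
  rw [div_le_div_iff₀ ha hq] at h4
  have h5 : q * r = a ^ 2 - 1 := P.mul
  nlinarith

theorem InE.le_a (P : Par a q r) {y1 y2 y3 : ℝ} (h : InE a q y1 y2 y3) : y1 ≤ a := by
  have h1 := h.le_hi P
  have h2 := h.lo2_le P
  have ha := P.pos
  have hr := P.hr
  have h3 : q * (y1 - q) / r ≤ a - y1 * r / a := h2.trans h1
  rw [div_le_iff₀ hr] at h3
  have e : (a - y1 * r / a) * r * a = a ^ 2 * r - y1 * r ^ 2 := by field_simp
  have h4 : q * (y1 - q) * a ≤ a ^ 2 * r - y1 * r ^ 2 := by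
    rw [← e]; exact mul_le_mul_of_nonneg_right h3 ha.le
  -- q a y1 - q^2 a ≤ a^2 r - y1 r^2
  have h5 := P.aq
  have h6 := P.ar
  have h7 : y1 * (a * q + r ^ 2) ≤ a * (a * r + q ^ 2) := by nlinarith
  have h8 : a * q + r ^ 2 = 1 := by linarith
  have h9 : a * r + q ^ 2 = 1 := by linarith
  rw [h8, h9] at h7
  linarith

/-- length of the lower chord -/
theorem len_lo (P : Par a q r) (t : ℝ) :
    (a - t * r / a) - (a - a * t / q) = t / (a * q) := by
  have ha := P.pos.ne'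
  have hq := P.hq.ne'
  have h5 : q * r = a ^ 2 - 1 := P.mul
  field_simp
  linear_combination (-t) * h5

theorem len_hi (P : Par a q r) (t : ℝ) :
    (a - t * r / a) - q * (t - q) / r = (a - t) / (a * r) := by
  have ha := P.pos.ne'
  have hr := P.hr.ne'
  have h5 := P.aq
  have h6 := P.ar
  field_simp
  linear_combination (a) * h6 - t * h5

/-- two points of the triangle do not differ by a lattice vector, part 1 -/
theorem no_shift (P : Par a q r) {y1 y2 y3 : ℝ} (h : InE a q y1 y2 y3)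
    (h' : InE a q (y1 + 1) (y2 - 1) y3) : False := by
  have h1 := h'.le_a P
  have h2 := h.lo1_le P
  have h3 := h'.le_hi P
  have h0 := P.one_lt
  have ha := P.pos
  have hq := P.hq
  have h4 : a - a * y1 / q ≤ a - (y1 + 1) * r / a := h2.trans h3
  have h5 : (y1 + 1) * r / a ≤ a * y1 / q := by linarith
  rw [div_le_div_iff₀ ha hq] at h5
  have h6 : q * r = a ^ 2 - 1 := P.mul
  have h7 : (y1 + 1) * (a ^ 2 - 1) ≤ a ^ 2 * y1 := by
    have : (y1 + 1) * (a ^ 2 - 1) = (y1 + 1) * r * q := by rw [← h6]; ring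
    rw [this]; nlinarith
  nlinarith

theorem inj (P : Par a q r) {y1 y2 y3 : ℝ} {i1 i2 i3 : ℤ} (h : InE a q y1 y2 y3)
    (h' : InE a q (y1 + i1) (y2 + i2) (y3 + i3)) : i1 = 0 ∧ i2 = 0 ∧ i3 = 0 := by
  have hlt := P.lt_six
  have hs : i1 + i2 + i3 = 0 := by
    have h1 := h.1
    have h2 := h'.1
    have : ((i1 + i2 + i3 : ℤ) : ℝ) = 0 := by push_cast; linarith
    exact_mod_cast this
  have bd : ∀ (x : ℝ) (i : ℤ), 0 ≤ x → x ≤ a → 0 ≤ x + i → x + i ≤ a → -1 ≤ i ∧ i ≤ 1 := by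
    intro x i hx1 hx2 hx3 hx4
    constructor
    · have : (-2 : ℝ) < i := by linarith
      have : (-2 : ℤ) < i := by exact_mod_cast this
      omega
    · have : (i : ℝ) < 2 := by linarith
      have : i < 2 := by exact_mod_cast this
      omega
  have b1 := bd y1 i1 (h.nonneg P) (h.le_a P) (h'.nonneg P) (h'.le_a P)
  have b2 := bd y2 i2 (h.cyc.nonneg P) (h.cyc.le_a P) (h'.cyc.nonneg P) (h'.cyc.le_a P)
  have b3 := bd y3 i3 (h.cyc.cyc.nonneg P) (h.cyc.cyc.le_a P) (h'.cyc.cyc.nonneg P)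
    (h'.cyc.cyc.le_a P)
  -- the six bad cases
  have key : ∀ (z1 z2 z3 : ℝ) (j1 j2 j3 : ℤ), InE a q z1 z2 z3 →
      InE a q (z1 + j1) (z2 + j2) (z3 + j3) → j1 = 1 → j2 = -1 → j3 = 0 → False := by
    intro z1 z2 z3 j1 j2 j3 g g' e1 e2 e3
    subst e1 e2 e3
    apply no_shift P g
    have : InE a q (z1 + 1) (z2 - 1) z3 := by
      have g2 := g'
      push_cast at g2
      rw [add_zero, ← sub_eq_add_neg] at g2
      exact g2
    exact this
  have key' : ∀ (z1 z2 z3 : ℝ) (j1 j2 j3 : ℤ), InE a q z1 z2 z3 →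
      InE a q (z1 + j1) (z2 + j2) (z3 + j3) → j1 = -1 → j2 = 1 → j3 = 0 → False := by
    intro z1 z2 z3 j1 j2 j3 g g' e1 e2 e3
    apply key _ _ _ (-j1) (-j2) (-j3) g' _ (by omega) (by omega) (by omega)
    push_cast
    simpa using g
  by_contra hne
  have : (i1 = 1 ∧ i2 = -1 ∧ i3 = 0) ∨ (i1 = -1 ∧ i2 = 1 ∧ i3 = 0) ∨
      (i2 = 1 ∧ i3 = -1 ∧ i1 = 0) ∨ (i2 = -1 ∧ i3 = 1 ∧ i1 = 0) ∨
      (i3 = 1 ∧ i1 = -1 ∧ i2 = 0) ∨ (i3 = -1 ∧ i1 = 1 ∧ i2 = 0) := by omega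
  rcases this with ⟨e1, e2, e3⟩ | ⟨e1, e2, e3⟩ | ⟨e1, e2, e3⟩ | ⟨e1, e2, e3⟩ | ⟨e1, e2, e3⟩ |
    ⟨e1, e2, e3⟩
  · exact key _ _ _ _ _ _ h h' e1 e2 e3
  · exact key' _ _ _ _ _ _ h h' e1 e2 e3
  · exact key _ _ _ _ _ _ h.cyc h'.cyc e1 e2 e3
  · exact key' _ _ _ _ _ _ h.cyc h'.cyc e1 e2 e3
  · exact key _ _ _ _ _ _ h.cyc.cyc h'.cyc.cyc e1 e2 e3
  · exact key' _ _ _ _ _ _ h.cyc.cyc h'.cyc.cyc e1 e2 e3

/-- reflection exchanges `q` and `r` -/
theorem InE.refl (P : Par a q r) {y1 y2 y3 : ℝ} (h : InE a r y1 y2 y3) :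
    InE a q (a - y2) (a - y1) (a - y3) := by
  obtain ⟨h1, h2, h3, h4⟩ := h
  have ha := P.ha
  have e0 : a * y1 + a * y2 + a * y3 = a * a + a * r := by
    rw [← mul_add, ← mul_add, h1]; ring
  have e1 : y1 * a = y1 * q + y1 * r := by rw [P.ha]; ring
  have e2 : y2 * a = y2 * q + y2 * r := by rw [P.ha]; ring
  have e3 : y3 * a = y3 * q + y3 * r := by rw [P.ha]; ring
  refine ⟨by linarith, ?_, ?_, ?_⟩
  · nlinarith
  · nlinarith
  · nlinarith

end Pool.Agent.TurnOne
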