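import Mathlib

/-! Real inequalities for a turned unit triangle.  `q, r > 0`, `q^2 + q r + r^2 = 1`, `a = q + r`. -/

set_option autoImplicit false

namespace Pool.Agent.TurnOne

/-- parameters of a turned unit triangle -/
structure Par (a q r : ℝ) : Prop where
  hq : 0 < q
  hr : 0 < r
  ha : a = q + r
  rel : q ^ 2 + q * r + r ^ 2 = 1

namespace Par

variable {a q r : ℝ}

theorem mul (P : Par a q r) : q * r = a ^ 2 - 1 := by
  rw [P.ha]; linarith [P.rel, show (q + r) ^ 2 = q ^ 2 + q * r + r ^ 2 + q * r by ring]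

theorem one_lt (P : Par a q r) : 1 < a := by
  have h1 := P.mul
  have h2 : 0 < q * r := mul_pos P.hq P.hr
  have h3 : 0 < a := by rw [P.ha]; linarith [P.hq, P.hr]
  nlinarith

theorem pos (P : Par a q r) : 0 < a := by linarith [P.one_lt]

theorem ar (P : Par a q r) : a * r = 1 - q ^ 2 := by
  rw [P.ha]; linarith [P.rel, show (q + r) * r = q * r + r ^ 2 by ring]

theorem aq (P : Par a q r) : a * q = 1 - r ^ 2 := by
  rw [P.ha]; linarith [P.rel, show (q + r) * q = q ^ 2 + q * r by ring]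

theorem lt_two (P : Par a q r) : 3 * a ^ 2 ≤ 4 := by
  have h1 := P.rel
  rw [P.ha]
  nlinarith [sq_nonneg (q - r)]

theorem lt_six (P : Par a q r) : a < 6 / 5 := by
  have h1 := P.lt_two
  have h2 := P.pos
  nlinarith

end Par

variable {a q r x G1 G3 : ℝ}

theorem c00 (P : Par a q r) (hx0 : 0 ≤ x) (hs : a < G1 + G3) (h3 : a * G3 ≤ r) :
    q * (1 - x) < a * G1 := by
  have h0 := P.one_lt
  have h1 : a * a < a * (G1 + G3) := by nlinarith
  have h2 := P.ha
  nlinarith [mul_nonneg P.hq.le hx0]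

theorem c10 (P : Par a q r) (hqr : q ≤ r) (hx1 : x ≤ 1) (hs : a < G1 + G3)
    (hG : G3 < 1) : a ^ 2 * r * (x - G3) + q * (1 - x) < a * G1 := by
  have h0 := P.one_lt
  have hr := P.hr
  have hq := P.hq
  have h4 : a ^ 2 * r * (x - G3) + q * (1 - x) ≤ a ^ 2 * r * (1 - G3) := by
    have h5 : 0 ≤ (a ^ 2 * r - q) * (1 - x) := by
      apply mul_nonneg _ (by linarith)
      nlinarith [mul_pos (show 0 < a ^ 2 - 1 by nlinarith) hr]
    nlinarith
  have h6 : a ^ 2 * r * (1 - G3) = a * ((1 - q ^ 2) * (1 - G3)) := by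
    rw [← P.ar]; ring
  have h7 : (1 - q ^ 2) * (1 - G3) ≤ 1 - G3 := by nlinarith [mul_nonneg (sq_nonneg q) (show 0 ≤ 1 - G3 by linarith)]
  have h8 : a * ((1 - q ^ 2) * (1 - G3)) ≤ a * (1 - G3) := mul_le_mul_of_nonneg_left h7 P.pos.le
  have h9 : a * (1 - G3) < a * G1 := by
    apply mul_lt_mul_of_pos_left _ P.pos
    linarith
  linarith

theorem two_r (P : Par a q r) (hs : a < G1 + G3) (h1 : a * G1 ≤ r) (h3 : a * G3 ≤ r) :
    a ^ 2 < 2 * r := by
  have h0 := P.one_lt
  have h2 : a * a < a * (G1 + G3) := by nlinarith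
  nlinarith

theorem q_lt_r (P : Par a q r) (hs : a < G1 + G3) (h1 : a * G1 ≤ r) (h3 : a * G3 ≤ r) :
    q < r := by
  have h4 := two_r P hs h1 h3
  have h0 := P.one_lt
  have h5 := P.ha
  nlinarith

theorem c01 (P : Par a q r) (hx0 : 0 ≤ x) (hs : a < G1 + G3)
    (h1 : a * G1 ≤ r) (h3 : a * G3 ≤ r) :
    q * r * (a * (r - q) - r * (r - q) * x - a * (a * G3 - q)) + (r - q) * q * (1 - x)
      < (r - q) * (a * G1) := by
  have h0 := P.one_lt
  have hr := P.hr
  have hq := P.hq
  have hlt := q_lt_r P hs h1 h3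
  have h2r := two_r P hs h1 h3
  -- reduce to x = 0
  have hA : q * r * (a * (r - q) - r * (r - q) * x - a * (a * G3 - q)) + (r - q) * q * (1 - x) ≤
      q * r * (a * (r - a * G3)) + (r - q) * q := by
    have e1 : 0 ≤ q * r * (r * (r - q) * x) := by
      have : 0 ≤ r - q := by linarith
      positivity
    have e2 : 0 ≤ (r - q) * q * x := by
      have : 0 ≤ r - q := by linarith
      positivity
    nlinarith
  -- with D = r - a G3
  set D := r - a * G3 with hD
  have hD0 : 0 ≤ D := by rw [hD]; linarith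
  have hG1 : a ^ 2 - r + D < a * G1 := by
    have : a * a < a * (G1 + G3) := by nlinarith
    rw [hD]; nlinarith
  have hDu : D ≤ 2 * r - a ^ 2 := by linarith
  set e := r - q with he
  have he0 : 0 < e := by rw [he]; linarith
  have hDu' : D ≤ e - a * (a - 1) := by
    have : 2 * r - a ^ 2 = e - a * (a - 1) := by
      rw [he]
      have := P.ha
      linear_combination (-1 : ℝ) * this
    linarith
  have hqr : q * r = a ^ 2 - 1 := P.mul
  -- quadratic
  have hquad : 0 ≤ e ^ 2 - a * (a ^ 2 - 1) * e + a ^ 2 * (a - 1) ^ 2 * (a + 1) := by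
    have h5 : a < 6 / 5 := P.lt_six
    have h6 : 0 ≤ a ^ 2 * (a - 1) ^ 2 * (a + 1) * (3 - a) := by
      have : 0 ≤ 3 - a := by linarith
      positivity
    nlinarith [sq_nonneg (2 * e - a * (a ^ 2 - 1))]
  have hmain : a * (a ^ 2 - 1) * D ≤ e * (a * (a - 1) + D) := by
    by_cases hc : a * (a ^ 2 - 1) ≤ e
    · have : a * (a ^ 2 - 1) * D ≤ e * D := mul_le_mul_of_nonneg_right hc hD0
      nlinarith [mul_nonneg he0.le (show 0 ≤ a * (a - 1) by nlinarith)]
    · push Not at hc
      have h7 : 0 ≤ (a * (a ^ 2 - 1) - e) * (e - a * (a - 1) - D) :=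
        mul_nonneg (by linarith) (by linarith)
      nlinarith
  have hfin : q * r * (a * D) + e * q < e * (a * G1) := by
    have h8 : e * (a ^ 2 - r + D) < e * (a * G1) := mul_lt_mul_of_pos_left hG1 he0
    have h9 : q * r * (a * D) + e * q ≤ e * (a ^ 2 - r + D) := by
      rw [hqr]
      have h10 : e * (a ^ 2 - r + D) - e * q = e * (a * (a - 1) + D) := by
        have := P.ha
        have h11 : a ^ 2 - r + D - q = a * (a - 1) + D := by rw [show a * (a - 1) = a ^ 2 - a by ring]; linarith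
        rw [← mul_sub, h11]
      nlinarith
    linarith
  linarith

theorem c11 (P : Par a q r) (hx1 : x ≤ 1) (hs : a < G1 + G3)
    (h1 : a * G1 ≤ r) (h3 : a * G3 ≤ r) :
    (r - q) * (a ^ 2 * r * (x - G3)) +
      q * r * (a * (r - q) - r * (r - q) * x - a * (a * G3 - q)) + (r - q) * q * (1 - x)
      < (r - q) * (a * G1) := by
  have h0 := P.one_lt
  have hr := P.hr
  have hq := P.hq
  have hlt := q_lt_r P hs h1 h3
  have h2r := two_r P hs h1 h3
  have ha := P.ha
  have hqr : q * r = a ^ 2 - 1 := P.mul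
  have hG3 : G3 < 1 := by
    have : a * G3 < a * 1 := by linarith
    exact lt_of_mul_lt_mul_left this P.pos.le
  have hG3' : q ≤ a * G3 := by
    have : a * a < a * (G1 + G3) := by nlinarith
    nlinarith
  have hA : (r - q) * (a ^ 2 * r * (x - G3)) +
      q * r * (a * (r - q) - r * (r - q) * x - a * (a * G3 - q)) + (r - q) * q * (1 - x) ≤
      (r - q) * (a ^ 2 * r * (1 - G3) + q ^ 2 * r) := by
    have e1 : (r - q) * (a ^ 2 * r * (1 - G3) + q ^ 2 * r) -
        ((r - q) * (a ^ 2 * r * (x - G3)) +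
        q * r * (a * (r - q) - r * (r - q) * x - a * (a * G3 - q)) + (r - q) * q * (1 - x)) =
        (r - q) * (1 - x) * (a ^ 2 * r - q * r * r - q) + q * r * a * (a * G3 - q)
          + (r - q) * q * r * (q + r - a) := by ring
    have e2 : a ^ 2 * r - q * r * r - q = r - q := by
      rw [hqr]; ring
    rw [e2, ← ha, sub_self, mul_zero, add_zero] at e1
    have e3 : 0 ≤ (r - q) * (1 - x) * (r - q) := by
      have : 0 ≤ r - q := by linarith
      have : 0 ≤ 1 - x := by linarith
      positivity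
    have e4 : 0 ≤ q * r * a * (a * G3 - q) := by
      have : 0 ≤ a * G3 - q := by linarith
      have := P.pos
      positivity
    linarith
  have hB : a ^ 2 * r * (1 - G3) + q ^ 2 * r ≤ a ^ 2 - a * G3 := by
    have e1 : a ^ 2 * r * (1 - G3) = a * (1 - q ^ 2) * (1 - G3) := by
      rw [← P.ar]; ring
    have e2 : q ^ 2 * r = q * (a ^ 2 - 1) := by rw [← hqr]; ring
    rw [e1, e2]
    have e3 : 0 ≤ a * q ^ 2 * (1 - G3) := by
      have : 0 ≤ 1 - G3 := by linarith
      have := P.pos
      positivity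
    have e4 : 0 ≤ (a - 1) * (a - q * (a + 1)) := by
      apply mul_nonneg (by linarith)
      nlinarith [mul_pos P.pos (show 0 < a - 1 by linarith)]
    nlinarith
  have hC : (r - q) * (a ^ 2 - a * G3) < (r - q) * (a * G1) := by
    apply mul_lt_mul_of_pos_left _ (by linarith)
    nlinarith
  have hD : (r - q) * (a ^ 2 * r * (1 - G3) + q ^ 2 * r) ≤ (r - q) * (a ^ 2 - a * G3) :=
    mul_le_mul_of_nonneg_left hB (by linarith)
  linarith

end Pool.Agent.TurnOne
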