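import Pool.Agent.TurnOne.Core

/-! No point of the product set lies at a low level of the turned triangle. -/

set_option autoImplicit false

namespace Pool.Agent.TurnOne

open MeasureTheory Set

variable {a q r : ℝ} {S1 S2 S3 : Set ℝ}

theorem no_low (C : Cov a q S1 S2 S3) (P : Par a q r) (hqr : q ≤ r)
    (hs : 2 < sg S1 + sg S2 + sg S3) {y1 y2 y3 : ℝ} (hy1 : y1 ∈ S1)
    (hy3 : y3 ∈ S3) (hE : InE a q y1 y2 y3) : a - 1 ≤ y1 := by
  have h0 := P.one_lt
  have hlt := P.lt_six
  have hpos := P.pos
  have hq := P.hq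
  have hr := P.hr
  have ha := P.ha
  have hm := P.mul
  have har := P.ar
  by_contra hcon
  push Not at hcon
  have hy0 := hE.nonneg P
  set t : ℝ := y1 with ht
  set g1 : ℝ := sg S3 + sg S2 - 1 with hg1
  set g2 : ℝ := sg S1 + sg S3 - 1 with hg2
  set g3 : ℝ := sg S2 + sg S1 - 1 with hg3
  have hG2 : (a + 1) * g2 < 1 := C.cyc.g_small P (by linarith)
  have hG3 : (a + 1) * g3 < 1 := C.cyc.cyc.g_small P (by linarith)
  have hsum : 1 < g1 + g2 + g3 := by linarith
  have hs' : a < (a + 1) * g1 + (a + 1) * g3 := by nlinarith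
  set G1 : ℝ := (a + 1) * g1 with hG1d
  set G3 : ℝ := (a + 1) * g3 with hG3d
  set x : ℝ := t / (a - 1) with hx
  have ha1 : 0 < a - 1 := by linarith
  have hxt : x * (a - 1) = t := by rw [hx]; field_simp
  have hx0 : 0 ≤ x := by rw [hx]; positivity
  have hx1 : x ≤ 1 := by rw [hx, div_le_one ha1]; exact hcon.le
  have hxq : (a + 1) * t = x * (q * r) := by rw [← hxt, hm]; ring
  -- facts on the lower chord
  have low : ∀ y2' y : ℝ, y ∈ S3 → InE a q t y2' y →
      a - 1 < y ∧ a - a * t / q ≤ y ∧ y ≤ a - t * r / a ∧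
      (y < 1 → y ≤ a - a * r * g3) ∧
      (1 ≤ y → g3 ≤ (a - y) / (a * r) + (y - 1) / (a * q)) := by
    intro y2' y hy h
    have h1 := h.lo1_le P
    have h2 := h.le_hi P
    have h3 : a * t / q < 1 := by
      rw [div_lt_one hq]
      have e1 : (a + 1) * (a * t) ≤ a * (q * r) := by
        have : (a + 1) * (a * t) = a * (x * (q * r)) := by rw [← hxq]; ring
        rw [this]
        have : 0 ≤ a * (q * r) := by positivity
        nlinarith
      have e2 : a * (q * r) < (a + 1) * q := by
        have : a * (q * r) = q * (a * r) := by ring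
        rw [this, har]
        nlinarith [mul_pos hq (show 0 < a + q ^ 2 by positivity)]
      exact lt_of_mul_lt_mul_left (e1.trans_lt e2) (by linarith)
    have h4 : a - 1 < y := by linarith
    refine ⟨h4, h1, h2, ?_, ?_⟩
    · intro h5
      have h6 := ((C.cyc.cyc.cb hy).mid P h4 h5).2
      rw [le_div_iff₀ (by positivity)] at h6
      linarith
    · intro h5
      exact (C.cyc.cyc.cb hy).wrap P h5 (h.cyc.cyc.le_a P)
  -- levels over the residue of t
  have lev : ∀ (i1 : ℤ) (y2' y : ℝ), InE a q (t + i1) y2' y → i1 = 0 ∨ i1 = 1 := by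
    intro i1 y2' y h
    have e1 := h.nonneg P
    have e2 := h.le_a P
    have e3 : (-1 : ℝ) < i1 := by linarith
    have e4 : (i1 : ℝ) < 2 := by linarith
    have e5 : (-1 : ℤ) < i1 := by exact_mod_cast e3
    have e6 : i1 < 2 := by exact_mod_cast e4
    omega
  have hhi : (a - (t + 1) * r / a) - q * (t + 1 - q) / r = (a - (t + 1)) / (a * r) :=
    len_hi P (t + 1)
  have hhi0 : 0 ≤ (a - (t + 1)) / (a * r) := by
    have : 0 ≤ a - (t + 1) := by linarith
    positivity
  have nrm_hi : (a - (t + 1)) / (a * r) * (a * (a + 1)) = q * (1 - x) := by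
    have : (a - (t + 1)) / (a * r) * (a * (a + 1)) = ((a + 1) * (a - 1) - (a + 1) * t) / r := by
      field_simp
      ring
    rw [this, hxq, show (a + 1) * (a - 1) = q * r by rw [hm]; ring]
    field_simp
  have nrm_lo : (a - a * r * g3 - (a - a * t / q)) * (a * (a + 1)) = a ^ 2 * r * (x - G3) := by
    have : (a - a * r * g3 - (a - a * t / q)) * (a * (a + 1)) =
        a ^ 2 * ((a + 1) * t) / q - a ^ 2 * r * ((a + 1) * g3) := by
      field_simp
      ring
    rw [this, hxq, hG3d]
    field_simp
  rcases lt_or_ge r (a * G3) with hc | hc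
  · -- direction 3 has no wrap
    have nowrap : ∀ y : ℝ, y ≤ a →
        ¬ (g3 ≤ (a - y) / (a * r) + (y - 1) / (a * q)) := by
      intro y h1 h2
      have := wrap_le P hqr h1 h2
      linarith
    obtain ⟨l1, l2, l3, l4, l5⟩ := low _ _ hy3 hE
    have l6 : y3 < 1 := by
      by_contra h
      push Not at h
      exact nowrap y3 (hE.cyc.cyc.le_a P) (l5 h)
    have l7 := l4 l6
    have hb := C.fib hy1 (J := Icc (a - a * t / q) (a - a * r * g3) ∪
      Icc (q * (t + 1 - q) / r) (a - (t + 1) * r / a)) (measurableSet_Icc.union measurableSet_Icc)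
      (by simp) (by
        intro i1 y hy h
        rcases lev i1 _ _ h with e | e
        · subst e
          have e0 : y1 + ((0 : ℤ) : ℝ) = t := by rw [← ht]; simp
          rw [e0] at h
          obtain ⟨k1, k2, k3, k4, k5⟩ := low _ _ hy h
          left
          refine ⟨k2, k4 ?_⟩
          by_contra h'
          push Not at h'
          exact nowrap y (h.cyc.cyc.le_a P) (k5 h')
        · subst e
          have e0 : y1 + ((1 : ℤ) : ℝ) = t + 1 := by rw [← ht]; simp
          rw [e0] at h
          exact Or.inr ⟨h.lo2_le P, h.le_hi P⟩)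
    have hb2 := hb.trans (toReal_union _ _ (by simp) (by simp))
    rw [toReal_Icc, toReal_Icc, hhi, max_eq_left hhi0, max_eq_left (by linarith)] at hb2
    have hb3 : a * G1 ≤ a ^ 2 * r * (x - G3) + q * (1 - x) := by
      rw [← nrm_hi, ← nrm_lo, ← add_mul]
      have : a * G1 = g1 * (a * (a + 1)) := by rw [hG1d]; ring
      rw [this]
      exact mul_le_mul_of_nonneg_right hb2 (by positivity)
    exact absurd hb3 (not_le.2 (c10 P hqr hx1 hs' hG3))
  · -- direction 3 may wrap
    have hc1 : a * G1 ≤ r := by
      have hmem : y1 + ((1 : ℤ) : ℝ) ∈ S1 := C.p1 _ hy1 1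
      have hmem' : t + 1 ∈ S1 := by simpa using hmem
      have h2 := (C.cb hmem').wrap P (by linarith) (by linarith)
      exact wrap_le P hqr (by linarith) h2
    have hlt' : q < r := q_lt_r P hs' hc1 hc
    have hrq : 0 < r - q := by linarith
    set Y : ℝ := (a * (q * r) * g3 + r - a * q) / (r - q) with hY
    have hb := C.fib hy1 (J := (Icc (a - a * t / q) (a - a * r * g3) ∪ Icc Y (a - t * r / a)) ∪
      Icc (q * (t + 1 - q) / r) (a - (t + 1) * r / a))
      ((measurableSet_Icc.union measurableSet_Icc).union measurableSet_Icc)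
      (by simp) (by
        intro i1 y hy h
        rcases lev i1 _ _ h with e | e
        · subst e
          have e0 : y1 + ((0 : ℤ) : ℝ) = t := by rw [← ht]; simp
          rw [e0] at h
          obtain ⟨k1, k2, k3, k4, k5⟩ := low _ _ hy h
          left
          rcases lt_or_ge y 1 with h' | h'
          · exact Or.inl ⟨k2, k4 h'⟩
          · right
            refine ⟨?_, k3⟩
            have k6 := k5 h'
            rw [hY, div_le_iff₀ hrq]
            have e1 : ((a - y) / (a * r) + (y - 1) / (a * q)) * (a * (q * r)) =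
                q * (a - y) + r * (y - 1) := by
              field_simp
            have e2 : g3 * (a * (q * r)) ≤ q * (a - y) + r * (y - 1) := by
              rw [← e1]
              exact mul_le_mul_of_nonneg_right k6 (by positivity)
            nlinarith
        · subst e
          have e0 : y1 + ((1 : ℤ) : ℝ) = t + 1 := by rw [← ht]; simp
          rw [e0] at h
          exact Or.inr ⟨h.lo2_le P, h.le_hi P⟩)
    have hb2 := hb.trans (toReal_union _ _ (by simp) (by simp))
    have hb2' := hb2.trans (add_le_add_left (toReal_union _ _ (by simp) (by simp)) _)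
    rw [toReal_Icc, toReal_Icc, toReal_Icc, hhi, max_eq_left hhi0] at hb2'
    have eG1 : a * G1 = g1 * (a * (a + 1)) := by rw [hG1d]; ring
    have haa : 0 < a * (a + 1) := by positivity
    have nrm_Y : (r - q) * ((a - t * r / a - Y) * (a * (a + 1))) =
        q * r * (a * (r - q) - r * (r - q) * x - a * (a * G3 - q)) := by
      have e1 : (r - q) * ((a - t * r / a - Y) * (a * (a + 1))) =
          (r - q) * ((a + 1) * a ^ 2) - (r - q) * r * ((a + 1) * t) -
          (a * (a + 1)) * (a * (q * r) * g3 + r - a * q) := by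
        have : (r - q) * Y = a * (q * r) * g3 + r - a * q := by
          rw [hY]; field_simp
        rw [← this]
        field_simp
      rw [e1, hxq, hG3d]
      have e2 : (r - q) * ((a + 1) * a ^ 2) - (a * (a + 1)) * (r - a * q) =
          a * (q * r) * r := by
        rw [hm]
        have : (r - q) * ((a + 1) * a ^ 2) - a * (a + 1) * (r - a * q) =
          a * (a + 1) * (a * r - r) := by ring
        rw [this]; ring
      linear_combination e2
    rcases le_total 0 (a - a * r * g3 - (a - a * t / q)) with u1 | u1 <;>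
    rcases le_total 0 (a - t * r / a - Y) with u2 | u2
    · rw [max_eq_left u1, max_eq_left u2] at hb2'
      have h1 : a * G1 ≤ a ^ 2 * r * (x - G3) + (a - t * r / a - Y) * (a * (a + 1)) +
          q * (1 - x) := by
        rw [eG1, ← nrm_lo, ← nrm_hi, ← add_mul, ← add_mul]
        exact mul_le_mul_of_nonneg_right hb2' haa.le
      have h2 := mul_le_mul_of_nonneg_left h1 hrq.le
      have h3 := c11 P hx1 hs' hc1 hc
      have h4 : (r - q) * (a ^ 2 * r * (x - G3) + (a - t * r / a - Y) * (a * (a + 1)) +
          q * (1 - x)) = (r - q) * (a ^ 2 * r * (x - G3)) +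
          (r - q) * ((a - t * r / a - Y) * (a * (a + 1))) + (r - q) * q * (1 - x) := by ring
      rw [h4, nrm_Y] at h2
      linarith
    · rw [max_eq_left u1, max_eq_right u2, add_zero] at hb2'
      have h1 : a * G1 ≤ a ^ 2 * r * (x - G3) + q * (1 - x) := by
        rw [eG1, ← nrm_lo, ← nrm_hi, ← add_mul]
        exact mul_le_mul_of_nonneg_right hb2' haa.le
      exact absurd h1 (not_le.2 (c10 P hqr hx1 hs' hG3))
    · rw [max_eq_right u1, max_eq_left u2, zero_add] at hb2'
      have h1 : a * G1 ≤ (a - t * r / a - Y) * (a * (a + 1)) + q * (1 - x) := by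
        rw [eG1, ← nrm_hi, ← add_mul]
        exact mul_le_mul_of_nonneg_right hb2' haa.le
      have h2 := mul_le_mul_of_nonneg_left h1 hrq.le
      have h3 := c01 P hx0 hs' hc1 hc
      have h4 : (r - q) * ((a - t * r / a - Y) * (a * (a + 1)) + q * (1 - x)) =
          (r - q) * ((a - t * r / a - Y) * (a * (a + 1))) + (r - q) * q * (1 - x) := by ring
      rw [h4, nrm_Y] at h2
      linarith
    · rw [max_eq_right u1, max_eq_right u2, zero_add, zero_add] at hb2'
      have h1 : a * G1 ≤ q * (1 - x) := by
        rw [eG1, ← nrm_hi]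
        exact mul_le_mul_of_nonneg_right hb2' haa.le
      exact absurd h1 (not_le.2 (c00 P hx0 hs' hc))

/-- a product set of total measure more than 2 does not lie in a turned unit triangle -/
theorem no_K (C : Cov a q S1 S2 S3) (P : Par a q r) (hqr : q ≤ r) :
    sg S1 + sg S2 + sg S3 ≤ 2 := by
  by_contra hcon
  push Not at hcon
  have h0 := P.one_lt
  have hlt := P.lt_six
  have b1 := sg_le_one S1
  have b2 := sg_le_one S2
  have b3 := sg_le_one S3
  set A : Set ℝ := S1 ∩ Ioo (a - 1) (a - 1 + 1) with hA
  set B : Set ℝ := S2 ∩ Ioo (a - 1) (a - 1 + 1) with hB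
  have vA : sg S1 = (volume A).toReal := sg_eq' C.o1.measurableSet C.p1 _
  have vB : sg S2 = (volume B).toReal := sg_eq' C.o2.measurableSet C.p2 _
  have nA : A.Nonempty := by
    by_contra h
    rw [Set.not_nonempty_iff_eq_empty] at h
    rw [h] at vA
    simp at vA
    linarith
  have nB : B.Nonempty := by
    by_contra h
    rw [Set.not_nonempty_iff_eq_empty] at h
    rw [h] at vB
    simp at vB
    linarith
  have oB : IsOpen B := C.o2.inter isOpen_Ioo
  have fA : volume A ≠ ⊤ := ((measure_mono inter_subset_right).trans_lt (by simp)).ne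
  have fB : volume B ≠ ⊤ := ((measure_mono inter_subset_right).trans_lt (by simp)).ne
  -- the possible values of y3
  set c : ℝ := a + q with hc
  set V : Set ℝ := (Ico (c - 2 * a) (c - 2 * a + 2) \ S3) ∪ (S3 ∩ Icc (a - 1) a) with hV
  have vV : (volume V).toReal ≤ 2 * (1 - sg S3) + sg S3 := by
    have e1 : (volume (Ico (c - 2 * a) (c - 2 * a + 2) \ S3)).toReal = 2 * (1 - sg S3) := by
      have e2 : Ico (c - 2 * a) (c - 2 * a + 2) \ S3 =
          Ico (c - 2 * a) (c - 2 * a + 2) \ (S3 ∩ Ico (c - 2 * a) (c - 2 * a + 2)) := by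
        ext z
        simp only [mem_sdiff, mem_inter_iff, not_and]
        tauto
      have e3 : S3 ∩ Ico (c - 2 * a) (c - 2 * a + 2) =
          (S3 ∩ Ico (c - 2 * a) (c - 2 * a + 1)) ∪ (S3 ∩ Ico (c - 2 * a + 1)
            (c - 2 * a + 1 + 1)) := by
        rw [← inter_union_distrib_left, Ico_union_Ico_eq_Ico (by linarith) (by linarith)]
        congr 2
        ring
      have e4 : Disjoint (S3 ∩ Ico (c - 2 * a) (c - 2 * a + 1)) (S3 ∩ Ico (c - 2 * a + 1)
            (c - 2 * a + 1 + 1)) := by
        rw [Set.disjoint_left]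
        rintro z ⟨_, h1⟩ ⟨_, h2⟩
        exact absurd h1.2 (not_lt.2 h2.1)
      have e5 : volume (S3 ∩ Ico (c - 2 * a) (c - 2 * a + 2)) =
          volume (S3 ∩ Ico (c - 2 * a) (c - 2 * a + 1)) + volume (S3 ∩ Ico (c - 2 * a + 1)
            (c - 2 * a + 1 + 1)) := by
        rw [e3, measure_union e4 (C.o3.measurableSet.inter measurableSet_Ico)]
      have e6 : (volume (S3 ∩ Ico (c - 2 * a) (c - 2 * a + 2))).toReal = 2 * sg S3 := by
        rw [e5, ENNReal.toReal_add (vol_lt_top _ _ _).ne (vol_lt_top _ _ _).ne,
          ← sg_eq C.o3.measurableSet C.p3, ← sg_eq C.o3.measurableSet C.p3]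
        ring
      rw [e2, measure_sdiff inter_subset_right
        (C.o3.measurableSet.inter measurableSet_Ico).nullMeasurableSet (vol_lt_top _ _ _).ne,
        ENNReal.toReal_sub_of_le (measure_mono inter_subset_right) (by simp), e6]
      simp
      ring
    have e7 : (volume (S3 ∩ Icc (a - 1) a)).toReal = sg S3 := by
      rw [sg_eq C.o3.measurableSet C.p3 (a - 1), sub_add_cancel]
      congr 1
      apply measure_congr
      exact (ae_eq_refl S3).inter Ico_ae_eq_Icc.symm
    have e8 := toReal_union (Ico (c - 2 * a) (c - 2 * a + 2) \ S3) (S3 ∩ Icc (a - 1) a)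
      ((measure_mono sdiff_subset).trans_lt (by simp)).ne
      ((measure_mono inter_subset_right).trans_lt (by simp)).ne
    rw [e1, e7] at e8
    exact e8
  have fV : volume V ≠ ⊤ := by
    refine ((measure_union_le _ _).trans_lt ?_).ne
    refine ENNReal.add_lt_top.2 ⟨?_, ?_⟩
    · exact (measure_mono sdiff_subset).trans_lt (by simp)
    · exact (measure_mono inter_subset_right).trans_lt (by simp)
  have mV : MeasurableSet V :=
    (measurableSet_Ico.diff C.o3.measurableSet).union (C.o3.measurableSet.inter measurableSet_Icc)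
  have mp : MeasurePreserving (fun y : ℝ => c - y) volume volume :=
    Measure.measurePreserving_sub_left volume c
  have key := brunn (A := A) (B := B) oB.measurableSet nA nB
    ⟨a - 1, fun z hz => hz.2.1.le⟩ ⟨a - 1 + 1, fun z hz => hz.2.2.le⟩ fA fB
    (U := (fun y : ℝ => c - y) ⁻¹' V) (by
      rintro y1 ⟨hy1, l1, u1⟩ y2 ⟨hy2, l2, u2⟩
      rw [sub_add_cancel] at u1 u2
      simp only [mem_preimage]
      by_cases h3 : c - (y1 + y2) ∈ S3
      · right
        refine ⟨h3, ?_⟩
        obtain ⟨i1, i2, i3, h⟩ := C.cov y1 hy1 y2 hy2 _ h3 (by ring)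
        have n1 := no_low C P hqr hcon (C.p1 _ hy1 i1) (C.p3 _ h3 i3) h
        have n2 := no_low C.cyc P hqr (by linarith) (C.p2 _ hy2 i2)
          (C.p1 _ hy1 i1) h.cyc
        have n3 := no_low C.cyc.cyc P hqr (by linarith) (C.p3 _ h3 i3)
          (C.p2 _ hy2 i2) h.cyc.cyc
        have m1 := h.le_a P
        have m2 := h.cyc.le_a P
        have m3 := h.cyc.cyc.le_a P
        have z1 : i1 = 0 := by
          have k1 : (-1 : ℝ) < i1 := by linarith
          have k2 : (i1 : ℝ) < 1 := by linarith
          have k3 : (-1 : ℤ) < i1 := by exact_mod_cast k1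
          have k4 : i1 < 1 := by exact_mod_cast k2
          omega
        have z2 : i2 = 0 := by
          have k1 : (-1 : ℝ) < i2 := by linarith
          have k2 : (i2 : ℝ) < 1 := by linarith
          have k3 : (-1 : ℤ) < i2 := by exact_mod_cast k1
          have k4 : i2 < 1 := by exact_mod_cast k2
          omega
        have z3 : (i3 : ℝ) = 0 := by
          have hh := h.1
          rw [z1, z2] at hh
          push_cast at hh
          linarith
        rw [z3, add_zero] at n3 m3
        exact ⟨n3, m3⟩
      · left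
        exact ⟨⟨by linarith, by linarith⟩, h3⟩)
    (by rw [mp.measure_preimage mV.nullMeasurableSet]; exact fV)
  rw [mp.measure_preimage mV.nullMeasurableSet, ← vA, ← vB] at key
  linarith

end Pool.Agent.TurnOne
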