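import Pool.Agent.TurnOne.Count

/-! The inequality `2 j X - j^2 ≤ N` for `N` homothetic pieces and one turned piece. -/

set_option autoImplicit false

namespace Pool.Agent.TurnOne

open Set Pool.Agent.TriCov

/-- first coordinate part -/
noncomputable def Af (z : (ℝ × ℝ) × Bool) (u : ℝ) : ℤ :=
  if z.2 = true then ⌊u - z.1.1⌋ + ⌊u - z.1.1⌋ + (⌊z.1.1 - u⌋ + 1)
  else ⌊z.1.1 - u⌋ + ⌊z.1.1 - u⌋ + (⌊u - z.1.1⌋ + 1)

/-- second coordinate part -/
noncomputable def Bf (z : (ℝ × ℝ) × Bool) (v : ℝ) : ℤ :=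
  if z.2 = true then ⌊v - z.1.2⌋ else ⌊z.1.2 - v⌋

/-- third coordinate part -/
noncomputable def Cf (z : (ℝ × ℝ) × Bool) (t : ℝ) : ℤ :=
  if z.2 = true then ⌊z.1.1 + z.1.2 - t⌋ + 1 else ⌊t - (z.1.1 + z.1.2)⌋ + 1

/-- sign -/
def ep (z : (ℝ × ℝ) × Bool) : ℤ := if z.2 = true then 1 else -1

theorem FS_A (z : (ℝ × ℝ) × Bool) :
    FS (Af z) (ep z) (if z.2 = true then -z.1.1 else z.1.1 - 1) := by
  unfold Af ep
  split_ifs
  · exact ((FS.up z.1.1).add (FS.up z.1.1)).add ((FS.down z.1.1).add (FS.const 1))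
      |>.congr (by norm_num) (by push_cast; ring)
  · exact ((FS.down z.1.1).add (FS.down z.1.1)).add ((FS.up z.1.1).add (FS.const 1))
      |>.congr (by norm_num) (by push_cast; ring)

theorem FS_B (z : (ℝ × ℝ) × Bool) :
    FS (Bf z) (ep z) (if z.2 = true then -z.1.2 else z.1.2 - 1) := by
  unfold Bf ep
  split_ifs
  · exact FS.up z.1.2
  · exact FS.down z.1.2

theorem FS_C (z : (ℝ × ℝ) × Bool) :
    FS (Cf z) (-ep z) (if z.2 = true then z.1.1 + z.1.2 else 1 - (z.1.1 + z.1.2)) := by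
  unfold Cf ep
  split_ifs
  · exact ((FS.down (z.1.1 + z.1.2)).add (FS.const 1)).congr (by norm_num) (by push_cast; ring)
  · exact ((FS.up (z.1.1 + z.1.2)).add (FS.const 1)).congr (by norm_num) (by push_cast; ring)

/-- count in one piece -/
theorem piece_le (z : (ℝ × ℝ) × Bool) (u v : ℝ) (F : Finset (ℤ × ℤ))
    (h : ∀ l ∈ F, (u + l.1, v + l.2) ∈ Pc z) :
    (F.card : ℤ) ≤ 1 + Af z u + Bf z v + Cf z (u + v) := by
  obtain ⟨⟨z1, z2⟩, b⟩ := z
  cases b
  · -- down
    have hinj : Function.Injective fun l : ℤ × ℤ => ((-l.1, -l.2) : ℤ × ℤ) := by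
      rintro ⟨i, j⟩ ⟨i', j'⟩ h
      simp only [Prod.mk.injEq] at h
      ext
      · simp only; omega
      · simp only; omega
    have h1 := cnt_le (z1 - u) (z2 - v) (F.image fun l : ℤ × ℤ => ((-l.1, -l.2) : ℤ × ℤ)) (by
      intro l hl
      rw [Finset.mem_image] at hl
      obtain ⟨k, hk, rfl⟩ := hl
      have h2 := h k hk
      rw [mem_Pc_false] at h2
      simp only at h2
      push_cast
      exact ⟨by linarith [h2.1], by linarith [h2.2.1], by linarith [h2.2.2]⟩)
    rw [Finset.card_image_of_injective _ hinj] at h1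
    simp only [Af, Bf, Cf, Bool.false_eq_true, if_false]
    have e1 : -(z1 - u) = u - z1 := by ring
    have e2 : -(z1 - u + (z2 - v)) = u + v - (z1 + z2) := by ring
    rw [e1, e2] at h1
    linarith
  · have h1 := cnt_le (u - z1) (v - z2) F (by
      intro l hl
      have h2 := h l hl
      rw [mem_Pc_true] at h2
      simp only at h2
      exact ⟨by linarith [h2.1], by linarith [h2.2.1], by linarith [h2.2.2]⟩)
    simp only [Af, Bf, Cf, if_true]
    have e1 : -(u - z1) = z1 - u := by ring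
    have e2 : -(u - z1 + (v - z2)) = z1 + z2 - (u + v) := by ring
    rw [e1, e2] at h1
    linarith

theorem Fn.trans {f : ℝ → ℤ} (h : Fn f) (c : ℝ) : Fn fun t => f (t - c) := by
  have h1 := (h.refl 0).refl c
  have e : (fun t => f (0 - (c - t))) = fun t => f (t - c) := by
    funext t; congr 1; ring
  rwa [e] at h1

theorem I_trans {f : ℝ → ℤ} (h : Fn f) (c : ℝ) : I (fun t => f (t - c)) = I f := by
  have h1 := I_refl (h.refl 0) c
  have e : (fun t => f (0 - (c - t))) = fun t => f (t - c) := by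
    funext t; congr 1; ring
  rw [e, I_refl h 0] at h1
  exact h1

theorem model_one {a q r c1 c2 c3 s X : ℝ} (hs : s = 1 ∨ s = -1) (P : Par a q r)
    (hc : c1 + c2 + c3 = a + q) {N : ℕ} (F : Fin N → (ℝ × ℝ) × Bool) (hX : 0 < X) (j : ℕ)
    (hj : dd F = j)
    (cov : ∀ p ∈ Del X, (∃ i, p ∈ Pc (F i)) ∨
      InE a q (s * p.1 + c1) (-s * (p.1 + p.2) + c2) (s * p.2 + c3)) :
    2 * j * X - j ^ 2 ≤ (N : ℝ) := by
  classical
  obtain ⟨σ, hσ, hσ1⟩ : ∃ σ : ℤ, (σ : ℝ) = s ∧ (σ = 1 ∨ σ = -1) := by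
    rcases hs with h | h
    · exact ⟨1, by rw [h]; norm_num, Or.inl rfl⟩
    · exact ⟨-1, by rw [h]; norm_num, Or.inr rfl⟩
  set T : ℤ := (j.choose 2 : ℤ) with hT
  have hT2 : 2 * T = j * (j - 1) := by
    have h1 : 2 * (j.choose 2) = j * (j - 1) := by
      rw [Nat.choose_two_right]
      exact Nat.mul_div_cancel' (Nat.even_mul_pred_self j).two_dvd
    have h2 : ((j * (j - 1) : ℕ) : ℤ) = j * (j - 1) := by
      rcases Nat.eq_zero_or_pos j with h | h
      · rw [h]; simp
      · push_cast [Nat.cast_sub h]; ring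
    have h3 : ((2 * j.choose 2 : ℕ) : ℤ) = ((j * (j - 1) : ℕ) : ℤ) := by rw [h1]
    rw [h2] at h3
    push_cast at h3
    exact h3
  have hdd : ∑ i, ep (F i) = j := by rw [← hj]; rfl
  set f1 : ℝ → ℤ := fun u => ∑ i, Af (F i) u + j * (⌊0 - u⌋ + 1) with hf1
  set f2 : ℝ → ℤ := fun v => ∑ i, Bf (F i) v + j * (⌊0 - v⌋ + 1) with hf2
  set f3 : ℝ → ℤ := fun t => (∑ i, Cf (F i) t + j * (⌊t - X⌋ + 1)) +
    ((N : ℤ) - T + j * (j - 2)) with hf3
  have s1 := (FS.sum Finset.univ (F := fun i => Af (F i)) (fun i => FS_A (F i))).add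
    (((FS.down 0).add (FS.const 1)).nmul j)
  have s2 := (FS.sum Finset.univ (F := fun i => Bf (F i)) (fun i => FS_B (F i))).add
    (((FS.down 0).add (FS.const 1)).nmul j)
  have s3 := ((FS.sum Finset.univ (F := fun i => Cf (F i)) (fun i => FS_C (F i))).add
    (((FS.up X).add (FS.const 1)).nmul j)).add (FS.const ((N : ℤ) - T + j * (j - 2)))
  have s1' := s1.congr (ρ' := 0) (by rw [hdd]; ring) rfl
  have s2' := s2.congr (ρ' := 0) (by rw [hdd]; ring) rfl
  have s3' := s3.congr (ρ' := 0) (by rw [Finset.sum_neg_distrib, hdd]; ring) rfl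
  have n1 : Fn f1 := s1'.fn
  have n2 : Fn f2 := s2'.fn
  have n3 : Fn f3 := s3'.fn
  have m1 : I f1 = _ := s1'.I_eq
  have m2 : I f2 = _ := s2'.I_eq
  have m3 : I f3 = _ := s3'.I_eq
  -- the pointwise inequality
  have key : ∀ u v : ℝ, 0 ≤ f1 u + f2 v + f3 (u + v) ∨
      (f1 u + f2 v + f3 (u + v) = -1 ∧ ∃ l : ℤ × ℤ,
        InE a q (s * (u + l.1) + c1) (-s * ((u + l.1) + (v + l.2)) + c2) (s * (v + l.2) + c3)) := by
    intro u v
    obtain ⟨F0, hF0, hcard⟩ := cnt_ge X u v hX
    set U := ⌊u⌋ with hU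
    set V := ⌊v⌋ with hV
    set W := ⌊X - (u + v)⌋ with hW
    set FE : Finset (ℤ × ℤ) := F0.filter fun l =>
      InE a q (s * (u + l.1) + c1) (-s * ((u + l.1) + (v + l.2)) + c2) (s * (v + l.2) + c3) with hFE
    set FP : Fin N → Finset (ℤ × ℤ) := fun i => F0.filter fun l => (u + l.1, v + l.2) ∈ Pc (F i)
      with hFP
    have hsub : F0 ⊆ (Finset.univ.biUnion FP) ∪ FE := by
      intro l hl
      rcases cov _ (hF0 l hl) with ⟨i, hi⟩ | hE
      · apply Finset.mem_union_left
        rw [Finset.mem_biUnion]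
        exact ⟨i, Finset.mem_univ i, Finset.mem_filter.2 ⟨hl, hi⟩⟩
      · apply Finset.mem_union_right
        exact Finset.mem_filter.2 ⟨hl, hE⟩
    have hc1 : (F0.card : ℤ) ≤ (∑ i, ((FP i).card : ℤ)) + FE.card := by
      have h1 := (Finset.card_le_card hsub).trans (Finset.card_union_le _ _)
      have h2 : (Finset.univ.biUnion FP).card ≤ ∑ i, (FP i).card := Finset.card_biUnion_le
      have h3 : F0.card ≤ (∑ i, (FP i).card) + FE.card := by omega
      exact_mod_cast h3
    have hc2 : ∑ i, ((FP i).card : ℤ) ≤ ∑ i, (1 + Af (F i) u + Bf (F i) v + Cf (F i) (u + v)) := by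
      apply Finset.sum_le_sum
      intro i _
      apply piece_le
      intro l hl
      exact (Finset.mem_filter.1 hl).2
    have hc3 : FE.card ≤ 1 := by
      rw [Finset.card_le_one]
      intro l hl l' hl'
      have g1 := (Finset.mem_filter.1 hl).2
      have g2 := (Finset.mem_filter.1 hl').2
      have g3 : InE a q ((s * (u + l.1) + c1) + ((σ * (l'.1 - l.1) : ℤ) : ℝ))
          ((-s * ((u + l.1) + (v + l.2)) + c2) + ((-σ * (l'.1 - l.1 + (l'.2 - l.2)) : ℤ) : ℝ))
          ((s * (v + l.2) + c3) + ((σ * (l'.2 - l.2) : ℤ) : ℝ)) := by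
        push_cast
        rw [hσ]
        have e1 : s * (u + (l.1 : ℝ)) + c1 + s * ((l'.1 : ℝ) - l.1) = s * (u + l'.1) + c1 := by ring
        have e2 : -s * (u + (l.1 : ℝ) + (v + l.2)) + c2 + -s * ((l'.1 : ℝ) - l.1 + (l'.2 - l.2)) =
            -s * (u + l'.1 + (v + l'.2)) + c2 := by ring
        have e3 : s * (v + (l.2 : ℝ)) + c3 + s * ((l'.2 : ℝ) - l.2) = s * (v + l'.2) + c3 := by ring
        rw [e1, e2, e3]
        exact g2
      obtain ⟨k1, _, k3⟩ := inj P g1 g3
      have k4 : l'.1 - l.1 = 0 := by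
        rcases hσ1 with h | h <;> rw [h] at k1 <;> omega
      have k5 : l'.2 - l.2 = 0 := by
        rcases hσ1 with h | h <;> rw [h] at k3 <;> omega
      ext
      · omega
      · omega
    -- floors
    have w1 : -U ≤ ⌊0 - u⌋ + 1 := by
      have h1 : -U - 1 ≤ ⌊0 - u⌋ := Int.le_floor.2 (by
        push_cast; linarith [Int.lt_floor_add_one u])
      omega
    have w2 : -V ≤ ⌊0 - v⌋ + 1 := by
      have h1 : -V - 1 ≤ ⌊0 - v⌋ := Int.le_floor.2 (by
        push_cast; linarith [Int.lt_floor_add_one v])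
      omega
    have w3 : -W ≤ ⌊u + v - X⌋ + 1 := by
      have h1 : -W - 1 ≤ ⌊u + v - X⌋ := Int.le_floor.2 (by
        push_cast; linarith [Int.lt_floor_add_one (X - (u + v))])
      omega
    have hj0 : (0 : ℤ) ≤ j := Int.natCast_nonneg j
    have w4 : (j : ℤ) * (-U + -V + -W) ≤
        j * ((⌊0 - u⌋ + 1) + (⌊0 - v⌋ + 1) + (⌊u + v - X⌋ + 1)) :=
      mul_le_mul_of_nonneg_left (by linarith) hj0
    have hprod : 0 ≤ (W + U + V - j + 1) * (W + U + V - j + 2) := by
      rcases lt_or_ge (W + U + V - j) (-1) with h | h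
      · nlinarith
      · nlinarith
    have hsum : ∑ i, (1 + Af (F i) u + Bf (F i) v + Cf (F i) (u + v)) =
        N + ∑ i, Af (F i) u + ∑ i, Bf (F i) v + ∑ i, Cf (F i) (u + v) := by
      rw [Finset.sum_add_distrib, Finset.sum_add_distrib, Finset.sum_add_distrib]
      simp
    have htot : -(FE.card : ℤ) ≤ f1 u + f2 v + f3 (u + v) := by
      simp only [hf1, hf2, hf3]
      nlinarith
    rcases Nat.eq_zero_or_pos FE.card with h | h
    · left
      rw [h] at htot
      simpa using htot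
    · by_cases h0 : 0 ≤ f1 u + f2 v + f3 (u + v)
      · exact Or.inl h0
      · right
        have h1 : (FE.card : ℤ) = 1 := by omega
        refine ⟨by omega, ?_⟩
        obtain ⟨l, hl⟩ := Finset.card_pos.1 h
        exact ⟨l, (Finset.mem_filter.1 hl).2⟩
  -- apply the abstract theorem
  have hI : 0 ≤ I f1 + I f3 + I f2 := by
    rcases hs with hs1 | hs1
    · have := main_all P (n1.trans c1) (n3.refl c2) (n2.trans c3) (by
        intro y1 y2 y3 hy
        have e0 : c2 - y2 = (y1 - c1) + (y3 - c3) := by linarith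
        rcases key (y1 - c1) (y3 - c3) with h | ⟨h, l, hE⟩
        · left
          rw [e0]
          linarith
        · right
          rw [e0]
          refine ⟨by linarith, l.1, -(l.1 + l.2), l.2, ?_⟩
          rw [hs1] at hE
          have e1 : 1 * (y1 - c1 + (l.1 : ℝ)) + c1 = y1 + l.1 := by ring
          have e2 : -1 * (y1 - c1 + (l.1 : ℝ) + (y3 - c3 + l.2)) + c2 =
              y2 + ((-(l.1 + l.2) : ℤ) : ℝ) := by
            push_cast; linarith
          have e3 : 1 * (y3 - c3 + (l.2 : ℝ)) + c3 = y3 + l.2 := by ring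
          rw [e1, e2, e3] at hE
          exact hE)
      rw [I_trans n1, I_refl n3, I_trans n2] at this
      exact this
    · have := main_all P (n1.refl c1) (n3.trans c2) (n2.refl c3) (by
        intro y1 y2 y3 hy
        have e0 : y2 - c2 = (c1 - y1) + (c3 - y3) := by linarith
        rcases key (c1 - y1) (c3 - y3) with h | ⟨h, l, hE⟩
        · left
          rw [e0]
          linarith
        · right
          rw [e0]
          refine ⟨by linarith, -l.1, l.1 + l.2, -l.2, ?_⟩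
          rw [hs1] at hE
          have e1 : -1 * (c1 - y1 + (l.1 : ℝ)) + c1 = y1 + ((-l.1 : ℤ) : ℝ) := by push_cast; ring
          have e2 : - -1 * (c1 - y1 + (l.1 : ℝ) + (c3 - y3 + l.2)) + c2 =
              y2 + ((l.1 + l.2 : ℤ) : ℝ) := by
            push_cast; linarith
          have e3 : -1 * (c3 - y3 + (l.2 : ℝ)) + c3 = y3 + ((-l.2 : ℤ) : ℝ) := by push_cast; ring
          rw [e1, e2, e3] at hE
          exact hE)
      rw [I_refl n1, I_trans n3, I_refl n2] at this
      exact this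
  rw [m1, m2, m3] at hI
  -- the sum of the means
  have hpt : ∀ i, ((if (F i).2 = true then -(F i).1.1 else (F i).1.1 - 1) +
      (if (F i).2 = true then (F i).1.1 + (F i).1.2 else 1 - ((F i).1.1 + (F i).1.2)) +
      (if (F i).2 = true then -(F i).1.2 else (F i).1.2 - 1) : ℝ) =
      ((ep (F i) : ℝ) - 1) / 2 := by
    intro i
    unfold ep
    split_ifs
    · push_cast; ring
    · push_cast; ring
  have hsumm : (∑ i, (if (F i).2 = true then -(F i).1.1 else (F i).1.1 - 1 : ℝ)) +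
      (∑ i, (if (F i).2 = true then (F i).1.1 + (F i).1.2 else 1 - ((F i).1.1 + (F i).1.2) : ℝ)) +
      (∑ i, (if (F i).2 = true then -(F i).1.2 else (F i).1.2 - 1 : ℝ)) =
      ((j : ℝ) - N) / 2 := by
    rw [← Finset.sum_add_distrib, ← Finset.sum_add_distrib, Finset.sum_congr rfl fun i _ => hpt i,
      ← Finset.sum_div, Finset.sum_sub_distrib]
    have : (∑ i, (ep (F i) : ℝ)) = j := by
      rw [← Int.cast_sum, hdd]; simp
    rw [this]
    simp
  have hT2' : 2 * (T : ℝ) = j * (j - 1) := by exact_mod_cast hT2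
  push_cast at hI
  nlinarith

end Pool.Agent.TurnOne
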