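import Pool.Agent.TurnOne.Count

/-! A unit triangle in the plane is homothetic to the standard one or has turned parameters. -/

set_option autoImplicit false

namespace Pool.Agent.TurnOne

open Set Pool.Agent.TriCov

/-- the lattice direction -/
noncomputable def om : ℂ := Complex.exp ((Real.pi : ℂ) / 3 * Complex.I)

/-- coordinates in the triangular lattice -/
noncomputable def ph (p : ℝ × ℝ) : ℂ := (p.1 : ℂ) + (p.2 : ℂ) * om

theorem om_eq : om = ⟨1 / 2, Real.sqrt 3 / 2⟩ := by
  have h : (Real.pi : ℂ) / 3 = ((Real.pi / 3 : ℝ) : ℂ) := by push_cast; rfl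
  apply Complex.ext
  · rw [om, h, Complex.exp_ofReal_mul_I_re, Real.cos_pi_div_three]
  · rw [om, h, Complex.exp_ofReal_mul_I_im, Real.sin_pi_div_three]

theorem ph_re (p : ℝ × ℝ) : (ph p).re = p.1 + p.2 / 2 := by
  simp [ph, om_eq]; ring

theorem ph_im (p : ℝ × ℝ) : (ph p).im = p.2 * (Real.sqrt 3 / 2) := by
  simp [ph, om_eq]

/-- first coordinate -/
noncomputable def cu (z : ℂ) : ℝ := z.re - z.im / Real.sqrt 3

/-- second coordinate -/
noncomputable def cv (z : ℂ) : ℝ := 2 * z.im / Real.sqrt 3

theorem s3 : Real.sqrt 3 ≠ 0 := by positivity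

theorem cu_ph (p : ℝ × ℝ) : cu (ph p) = p.1 := by
  have := s3
  rw [cu, ph_re, ph_im]; field_simp; ring

theorem cv_ph (p : ℝ × ℝ) : cv (ph p) = p.2 := by
  have := s3
  rw [cv, ph_im]; field_simp

theorem ph_cucv (z : ℂ) : ph (cu z, cv z) = z := by
  have := s3
  apply Complex.ext
  · rw [ph_re]; simp only [cu, cv]; ring
  · rw [ph_im]; simp only [cv]; field_simp

theorem dist_ph (P Q : ℝ × ℝ) : dist (ph P) (ph Q) ^ 2 =
    (Q.1 - P.1) ^ 2 + (Q.1 - P.1) * (Q.2 - P.2) + (Q.2 - P.2) ^ 2 := by
  have h3 : Real.sqrt 3 ^ 2 = 3 := Real.sq_sqrt (by norm_num)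
  rw [Complex.dist_eq, ← Complex.normSq_eq_norm_sq, Complex.normSq_apply, Complex.sub_re,
    Complex.sub_im, ph_re, ph_re, ph_im, ph_im]
  linear_combination (Q.2 - P.2) ^ 2 / 4 * h3

/-- a linear inequality which holds at the vertices -/
theorem hull_le {P0 P1 P2 : ℝ × ℝ} (α β γ : ℝ) (h0 : 0 ≤ α * P0.1 + β * P0.2 + γ)
    (h1 : 0 ≤ α * P1.1 + β * P1.2 + γ) (h2 : 0 ≤ α * P2.1 + β * P2.2 + γ) {p : ℝ × ℝ}
    (hp : ph p ∈ convexHull ℝ ({ph P0, ph P1, ph P2} : Set ℂ)) :
    0 ≤ α * p.1 + β * p.2 + γ := by
  have hc : Convex ℝ {z : ℂ | 0 ≤ α * cu z + β * cv z + γ} := by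
    intro x hx y hy s t hs ht hst
    simp only [mem_ofPred_eq] at hx hy ⊢
    have e : α * cu (s • x + t • y) + β * cv (s • x + t • y) + γ =
        s * (α * cu x + β * cv x + γ) + t * (α * cu y + β * cv y + γ) := by
      have : γ = (s + t) * γ := by rw [hst, one_mul]
      simp only [cu, cv, Complex.add_re, Complex.add_im, Complex.real_smul, Complex.mul_re,
        Complex.mul_im, Complex.ofReal_re, Complex.ofReal_im]
      linear_combination this
    rw [e]
    have := mul_nonneg hs hx
    have := mul_nonneg ht hy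
    linarith
  have hs : ({ph P0, ph P1, ph P2} : Set ℂ) ⊆ {z : ℂ | 0 ≤ α * cu z + β * cv z + γ} := by
    rintro z (rfl | rfl | rfl) <;> simp only [mem_ofPred_eq, cu_ph, cv_ph] <;> assumption
  have := convexHull_min hs hc hp
  simpa only [mem_ofPred_eq, cu_ph, cv_ph] using this

/-- the conclusion for the triangle with these vertices -/
def Goal3 (S : Set ℂ) : Prop :=
  (∃ z : ℝ × ℝ, ∃ b : Bool, ∀ p : ℝ × ℝ, ph p ∈ convexHull ℝ S → p ∈ Pc (z, b)) ∨
    (∃ a q r c1 c2 c3 : ℝ, ∃ s : ℝ, (s = 1 ∨ s = -1) ∧ Par a q r ∧ c1 + c2 + c3 = a + q ∧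
      ∀ p : ℝ × ℝ, ph p ∈ convexHull ℝ S →
        InE a q (s * p.1 + c1) (-s * (p.1 + p.2) + c2) (s * p.2 + c3))

theorem goal_pos (u v al be : ℝ) (h : al ^ 2 + al * be + be ^ 2 = 1) (ha : 0 ≤ al)
    (hb : 0 ≤ be) : Goal3 {ph (u, v), ph (u + al, v + be), ph (u - be, v + al + be)} := by
  rcases ha.eq_or_lt with ha0 | ha
  · left
    have hb1 : be = 1 := by subst ha0; nlinarith
    subst ha0 hb1
    refine ⟨(u, v + 1), false, fun p hp => ?_⟩
    rw [mem_Pc_false]
    have e1 := hull_le (-1) 0 u
      (by simp only; linarith) (by simp only; linarith) (by simp only; linarith) hp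
    have e2 := hull_le 0 (-1) (v + 1)
      (by simp only; linarith) (by simp only; linarith) (by simp only; linarith) hp
    have e3 := hull_le 1 1 (-u - v)
      (by simp only; linarith) (by simp only; linarith) (by simp only; linarith) hp
    simp only
    refine ⟨by linarith, by linarith, by linarith⟩
  rcases hb.eq_or_lt with hb0 | hb
  · left
    have ha1 : al = 1 := by subst hb0; nlinarith
    subst hb0 ha1
    refine ⟨(u, v), true, fun p hp => ?_⟩
    rw [mem_Pc_true]
    have e1 := hull_le 1 0 (-u)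
      (by simp only; linarith) (by simp only; linarith) (by simp only; linarith) hp
    have e2 := hull_le 0 1 (-v)
      (by simp only; linarith) (by simp only; linarith) (by simp only; linarith) hp
    have e3 := hull_le (-1) (-1) (u + v + 1)
      (by simp only; linarith) (by simp only; linarith) (by simp only; linarith) hp
    simp only
    refine ⟨by linarith, by linarith, by linarith⟩
  right
  refine ⟨al + be, be, al, be - u, u + v + (al + be), -v, 1, Or.inl rfl,
    ⟨hb, ha, by ring, by linarith⟩, by ring, fun p hp => ?_⟩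
  have hab := mul_pos ha hb
  have haa := mul_pos ha ha
  have hbb := mul_pos hb hb
  refine ⟨by ring, ?_, ?_, ?_⟩
  · have := hull_le (be * 1 - (al + be) * 1) (-(al + be)) (be * (be - u) + (al + be) *
      (u + v + (al + be)) - (al + be) * be) (by simp only; nlinarith) (by simp only; nlinarith)
      (by simp only; nlinarith) hp
    nlinarith
  · have := hull_le (-be) (-be + (al + be)) (be * (u + v + (al + be)) - (al + be) * v
      - (al + be) * be) (by simp only; nlinarith) (by simp only; nlinarith)
      (by simp only; nlinarith) hp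
    nlinarith
  · have := hull_le (al + be) be (-be * v + (al + be) * (be - u) - (al + be) * be)
      (by simp only; nlinarith) (by simp only; nlinarith) (by simp only; nlinarith) hp
    nlinarith

theorem goal_neg (u v al be : ℝ) (h : al ^ 2 + al * be + be ^ 2 = 1) (ha : al ≤ 0)
    (hb : be ≤ 0) : Goal3 {ph (u, v), ph (u + al, v + be), ph (u - be, v + al + be)} := by
  rcases ha.eq_or_lt with ha0 | ha
  · left
    have hb1 : be = -1 := by subst ha0; nlinarith
    subst ha0 hb1
    refine ⟨(u, v - 1), true, fun p hp => ?_⟩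
    rw [mem_Pc_true]
    have e1 := hull_le 1 0 (-u)
      (by simp only; linarith) (by simp only; linarith) (by simp only; linarith) hp
    have e2 := hull_le 0 1 (-v + 1)
      (by simp only; linarith) (by simp only; linarith) (by simp only; linarith) hp
    have e3 := hull_le (-1) (-1) (u + v)
      (by simp only; linarith) (by simp only; linarith) (by simp only; linarith) hp
    simp only
    refine ⟨by linarith, by linarith, by linarith⟩
  rcases hb.eq_or_lt with hb0 | hb
  · left
    have ha1 : al = -1 := by subst hb0; nlinarith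
    subst hb0 ha1
    refine ⟨(u, v), false, fun p hp => ?_⟩
    rw [mem_Pc_false]
    have e1 := hull_le (-1) 0 u
      (by simp only; linarith) (by simp only; linarith) (by simp only; linarith) hp
    have e2 := hull_le 0 (-1) v
      (by simp only; linarith) (by simp only; linarith) (by simp only; linarith) hp
    have e3 := hull_le 1 1 (-u - v + 1)
      (by simp only; linarith) (by simp only; linarith) (by simp only; linarith) hp
    simp only
    refine ⟨by linarith, by linarith, by linarith⟩
  right
  refine ⟨-al - be, -be, -al, u - be, -u - v - al - be, v, -1, Or.inr rfl,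
    ⟨by linarith, by linarith, by ring, by linarith⟩, by ring, fun p hp => ?_⟩
  have hab := mul_pos_of_neg_of_neg ha hb
  have haa := mul_pos_of_neg_of_neg ha ha
  have hbb := mul_pos_of_neg_of_neg hb hb
  refine ⟨by ring, ?_, ?_, ?_⟩
  · have := hull_le (be - (al + be)) (-(al + be)) (-be * (u - be) + (-al - be) *
      (-u - v - al - be) - (-al - be) * -be) (by simp only; nlinarith) (by simp only; nlinarith)
      (by simp only; nlinarith) hp
    nlinarith
  · have := hull_le (-be) (-be + (al + be)) (-be * (-u - v - al - be) + (-al - be) * v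
      - (-al - be) * -be) (by simp only; nlinarith) (by simp only; nlinarith)
      (by simp only; nlinarith) hp
    nlinarith
  · have := hull_le (al + be) be (-be * v + (-al - be) * (u - be) - (-al - be) * -be)
      (by simp only; nlinarith) (by simp only; nlinarith) (by simp only; nlinarith) hp
    nlinarith

theorem goal_any (u v al be : ℝ) (h : al ^ 2 + al * be + be ^ 2 = 1) :
    Goal3 {ph (u, v), ph (u + al, v + be), ph (u - be, v + al + be)} := by
  have key : ∀ u v al be : ℝ, al ^ 2 + al * be + be ^ 2 = 1 →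
      ((0 ≤ al ∧ 0 ≤ be) ∨ (al ≤ 0 ∧ be ≤ 0)) →
      Goal3 {ph (u, v), ph (u + al, v + be), ph (u - be, v + al + be)} := by
    intro u v al be h hs
    rcases hs with hs | hs
    · exact goal_pos u v al be h hs.1 hs.2
    · exact goal_neg u v al be h hs.1 hs.2
  have rot : ∀ X Y Z : ℂ, ({X, Y, Z} : Set ℂ) = {Y, Z, X} := by
    intro X Y Z; ext t; simp only [mem_insert_iff, mem_singleton_iff]; tauto
  have cases : ((0 ≤ al ∧ 0 ≤ be) ∨ (al ≤ 0 ∧ be ≤ 0)) ∨
      ((0 ≤ -al - be ∧ 0 ≤ al) ∨ (-al - be ≤ 0 ∧ al ≤ 0)) ∨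
      ((0 ≤ be ∧ 0 ≤ -al - be) ∨ (be ≤ 0 ∧ -al - be ≤ 0)) := by
    rcases le_total 0 al with h1 | h1 <;> rcases le_total 0 be with h2 | h2 <;>
      rcases le_total 0 (-al - be) with h3 | h3 <;> tauto
  rcases cases with h1 | h1 | h1
  · exact key u v al be h h1
  · have := key (u + al) (v + be) (-al - be) al (by linarith) h1
    rw [rot]
    have e1 : ((u + al + (-al - be), v + be + al) : ℝ × ℝ) = (u - be, v + al + be) := by
      ext
      · simp only; ring
      · simp only; ring
    have e2 : ((u + al - al, v + be + (-al - be) + al) : ℝ × ℝ) = (u, v) := by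
      ext
      · simp only; ring
      · simp only; ring
    rwa [e1, e2] at this
  · have := key (u - be) (v + al + be) be (-al - be) (by linarith) h1
    rw [rot, rot]
    have e1 : ((u - be + be, v + al + be + (-al - be)) : ℝ × ℝ) = (u, v) := by
      ext
      · simp only; ring
      · simp only; ring
    have e2 : ((u - be - (-al - be), v + al + be + be + (-al - be)) : ℝ × ℝ) =
        (u + al, v + be) := by
      ext
      · simp only; ring
      · simp only; ring
    rwa [e1, e2] at this

theorem exists_par (A B C : ℂ) (h1 : dist A B = 1) (h2 : dist B C = 1) (h3 : dist A C = 1) :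
    (∃ z : ℝ × ℝ, ∃ b : Bool, ∀ p : ℝ × ℝ, ph p ∈ convexHull ℝ ({A, B, C} : Set ℂ) →
      p ∈ Pc (z, b)) ∨
    (∃ a q r c1 c2 c3 : ℝ, ∃ s : ℝ, (s = 1 ∨ s = -1) ∧ Par a q r ∧ c1 + c2 + c3 = a + q ∧
      ∀ p : ℝ × ℝ, ph p ∈ convexHull ℝ ({A, B, C} : Set ℂ) →
        InE a q (s * p.1 + c1) (-s * (p.1 + p.2) + c2) (s * p.2 + c3)) := by
  change Goal3 {A, B, C}
  obtain ⟨u, v, hA⟩ : ∃ u v : ℝ, A = ph (u, v) := ⟨cu A, cv A, (ph_cucv A).symm⟩
  obtain ⟨a, b, hB⟩ : ∃ a b : ℝ, B = ph (u + a, v + b) :=
    ⟨cu B - u, cv B - v, by rw [← ph_cucv B]; simp [cu_ph, cv_ph]⟩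
  obtain ⟨c, d, hC⟩ : ∃ c d : ℝ, C = ph (u + c, v + d) :=
    ⟨cu C - u, cv C - v, by rw [← ph_cucv C]; simp [cu_ph, cv_ph]⟩
  have e1 : a ^ 2 + a * b + b ^ 2 = 1 := by
    have := dist_ph (u, v) (u + a, v + b)
    rw [← hA, ← hB, h1] at this
    simp only at this
    linarith [this]
  have e3 : c ^ 2 + c * d + d ^ 2 = 1 := by
    have := dist_ph (u, v) (u + c, v + d)
    rw [← hA, ← hC, h3] at this
    simp only at this
    linarith [this]
  have e2 : 2 * a * c + a * d + b * c + 2 * b * d = 1 := by
    have := dist_ph (u + a, v + b) (u + c, v + d)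
    rw [← hB, ← hC, h2] at this
    simp only at this
    linarith [this]
  have hc : (c + b) * (c - a - b) = 0 := by
    have : 3 * ((c + b) * (c - a - b)) = 0 := by
      linear_combination (a + 2 * b) ^ 2 * e3 - ((a + 2 * b) * c + d * (a + 2 * b) + 1 -
        c * (2 * a + b)) * e2 - (3 * c ^ 2 - 1) * e1
    linarith
  have hd : (d + a) * (d - a - b) = 0 := by
    have : 3 * ((d + a) * (d - a - b)) = 0 := by
      linear_combination (b + 2 * a) ^ 2 * e3 - ((b + 2 * a) * d + c * (b + 2 * a) + 1 -
        d * (2 * b + a)) * e2 - (3 * d ^ 2 - 1) * e1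
    linarith
  have hh : (c = -b ∧ d = a + b) ∨ (c = a + b ∧ d = -a) := by
    have two : (2 * a + b) * (a + 2 * b) = 0 → a + b = -b ∨ a + b = -a := by
      intro h
      rcases mul_eq_zero.1 h with h | h
      · right; linarith
      · left; linarith
    rcases mul_eq_zero.1 hc with hc | hc <;> rcases mul_eq_zero.1 hd with hd | hd
    · have hc1 : c = -b := by linarith
      have hd1 : d = -a := by linarith
      subst hc1 hd1
      rcases two (by nlinarith) with h | h
      · right; exact ⟨h.symm, rfl⟩
      · left; exact ⟨rfl, h.symm⟩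
    · left; exact ⟨by linarith, by linarith⟩
    · right; exact ⟨by linarith, by linarith⟩
    · have hc1 : c = a + b := by linarith
      have hd1 : d = a + b := by linarith
      rcases two (by rw [hc1, hd1] at e2; nlinarith) with h | h
      · left; exact ⟨by linarith, hd1⟩
      · right; exact ⟨hc1, by linarith⟩
  rcases hh with ⟨hc', hd'⟩ | ⟨hc', hd'⟩
  · subst hc' hd'
    have := goal_any u v a b e1
    have e1' : ((u + -b, v + (a + b)) : ℝ × ℝ) = (u - b, v + a + b) := by
      ext
      · simp only; ring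
      · simp only; ring
    rw [hA, hB, hC, e1']
    exact this
  · subst hc' hd'
    have := goal_any u v (a + b) (-a) (by linarith)
    rw [hA, hB, hC, show ({ph (u, v), ph (u + a, v + b), ph (u + (a + b), v + -a)} : Set ℂ) =
      {ph (u, v), ph (u + (a + b), v + -a), ph (u + a, v + b)} by
        ext t; simp only [mem_insert_iff, mem_singleton_iff]; tauto]
    have e1' : ((u - -a, v + (a + b) + -a) : ℝ × ℝ) = (u + a, v + b) := by
      ext
      · simp only; ring
      · simp only; ring
    rwa [e1'] at this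

end Pool.Agent.TurnOne
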