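import Pool.Agent.TurnOne.Model
import Pool.Agent.TurnOne.Turn

/-! Transfer to the plane. -/

set_option autoImplicit false

namespace Pool.Agent.TurnOne

open Set Pool.Agent.TriCov

theorem pl_om_eq : om = (1 / 2 : ℝ) + (Real.sqrt 3 / 2 : ℝ) * Complex.I := by
  unfold om
  have h : (Real.pi : ℂ) / 3 * Complex.I = ((Real.pi / 3 : ℝ) : ℂ) * Complex.I := by push_cast; ring
  rw [h, Complex.exp_mul_I, ← Complex.ofReal_cos, ← Complex.ofReal_sin, Real.cos_pi_div_three,
    Real.sin_pi_div_three]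

theorem pl_ph_re (p : ℝ × ℝ) : (ph p).re = p.1 + p.2 / 2 := by
  unfold ph
  rw [pl_om_eq]
  simp
  ring

theorem pl_ph_im (p : ℝ × ℝ) : (ph p).im = p.2 * (Real.sqrt 3 / 2) := by
  unfold ph
  rw [pl_om_eq]
  simp

theorem sqrt3_pos : 0 < Real.sqrt 3 / 2 := by positivity

theorem ph_inj {p p' : ℝ × ℝ} (h : ph p = ph p') : p = p' := by
  have h1 := congrArg Complex.re h
  have h2 := congrArg Complex.im h
  rw [pl_ph_re, pl_ph_re] at h1
  rw [pl_ph_im, pl_ph_im] at h2
  have h3 : p.2 = p'.2 := mul_right_cancel₀ sqrt3_pos.ne' h2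
  ext
  · linarith
  · exact h3

theorem ph_surj (z : ℂ) : ∃ p, ph p = z := by
  refine ⟨(z.re - z.im / (Real.sqrt 3 / 2) / 2, z.im / (Real.sqrt 3 / 2)), ?_⟩
  apply Complex.ext
  · rw [pl_ph_re]; simp
  · rw [pl_ph_im]
    simp only
    rw [div_mul_cancel₀ _ sqrt3_pos.ne']

theorem ph_add (p p' : ℝ × ℝ) : ph (p + p') = ph p + ph p' := by
  unfold ph; simp only [Prod.fst_add, Prod.snd_add]; push_cast; ring

theorem ph_sub (p p' : ℝ × ℝ) : ph (p - p') = ph p - ph p' := by
  unfold ph; simp only [Prod.fst_sub, Prod.snd_sub]; push_cast; ring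

theorem ph_smul (c : ℝ) (p : ℝ × ℝ) : ph (c • p) = c • ph p := by
  unfold ph
  simp only [Prod.smul_fst, Prod.smul_snd, smul_eq_mul, Complex.real_smul]
  push_cast
  ring

/-- The closed triangle with vertices `0`, `s`, `s e^(iπ/3)`. -/
noncomputable def Tri (s : ℝ) : Set ℂ :=
  convexHull ℝ {0, (s : ℂ), (s : ℂ) * Complex.exp ((Real.pi : ℂ) / 3 * Complex.I)}

theorem tri_sub {s : ℝ} (hs : 0 ≤ s) : Tri s ⊆ ph '' Del s := by
  apply convexHull_min
  · intro x hx
    simp only [mem_insert_iff, mem_singleton_iff] at hx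
    rcases hx with rfl | rfl | rfl
    · exact ⟨(0, 0), ⟨le_refl _, le_refl _, by simpa using hs⟩, by simp [ph]⟩
    · exact ⟨(s, 0), ⟨hs, le_refl _, by simp⟩, by simp [ph]⟩
    · exact ⟨(0, s), ⟨le_refl _, hs, by simp⟩, by simp [ph, om]⟩
  · rintro _ ⟨p, hp, rfl⟩ _ ⟨p', hp', rfl⟩ α β hα hβ hαβ
    refine ⟨α • p + β • p', ⟨?_, ?_, ?_⟩, by rw [ph_add, ph_smul, ph_smul]⟩
    · have := hp.1; have := hp'.1
      simp only [Prod.fst_add, Prod.smul_fst, smul_eq_mul]; positivity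
    · have := hp.2.1; have := hp'.2.1
      simp only [Prod.snd_add, Prod.smul_snd, smul_eq_mul]; positivity
    · have h1 := hp.2.2
      have h2 := hp'.2.2
      simp only [Prod.fst_add, Prod.smul_fst, Prod.snd_add, Prod.smul_snd, smul_eq_mul]
      calc α * p.1 + β * p'.1 + (α * p.2 + β * p'.2) =
            α * (p.1 + p.2) + β * (p'.1 + p'.2) := by ring
        _ ≤ α * s + β * s := by gcongr
        _ = s := by rw [← add_mul, hαβ, one_mul]

theorem del_sub {s : ℝ} (hs : 0 < s) {p : ℝ × ℝ} (hp : p ∈ Del s) : ph p ∈ Tri s := by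
  obtain ⟨hu, hv, huv⟩ := hp
  have hconv := convex_convexHull ℝ
    ({0, (s : ℂ), (s : ℂ) * Complex.exp ((Real.pi : ℂ) / 3 * Complex.I)} : Set ℂ)
  have h1 := hconv.sum_mem (t := (Finset.univ : Finset (Fin 3)))
    (w := ![1 - (p.1 + p.2) / s, p.1 / s, p.2 / s])
    (z := ![0, (s : ℂ), (s : ℂ) * Complex.exp ((Real.pi : ℂ) / 3 * Complex.I)]) ?_ ?_ ?_
  · simp only [Fin.sum_univ_three, Matrix.cons_val_zero, Matrix.cons_val_one, Matrix.cons_val,
      Complex.real_smul, mul_zero, zero_add] at h1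
    have hs' : (s : ℂ) ≠ 0 := by exact_mod_cast hs.ne'
    have e : ((p.1 / s : ℝ) : ℂ) * (s : ℂ) + ((p.2 / s : ℝ) : ℂ) *
        ((s : ℂ) * Complex.exp ((Real.pi : ℂ) / 3 * Complex.I)) = ph p := by
      unfold ph om
      push_cast
      field_simp
    rw [e] at h1
    exact h1
  · intro i _
    fin_cases i
    · simp only [Fin.zero_eta, Matrix.cons_val_zero, sub_nonneg]
      rwa [div_le_one hs]
    · exact div_nonneg hu hs.le
    · exact div_nonneg hv hs.le
  · simp only [Fin.sum_univ_three, Matrix.cons_val_zero, Matrix.cons_val_one, Matrix.cons_val]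
    field_simp
    ring
  · intro i _
    apply subset_convexHull
    fin_cases i <;> simp

theorem up_sub {z p : ℝ × ℝ} {w : ℂ} (hw : w ∈ Tri 1) (h : ph p = ph z + w) :
    p ∈ Pc (z, true) := by
  obtain ⟨p', hp', rfl⟩ := tri_sub zero_le_one hw
  rw [← ph_add] at h
  have := ph_inj h
  rw [this, mem_Pc_true]
  simp only [Prod.fst_add, Prod.snd_add]
  exact ⟨by linarith [hp'.1], by linarith [hp'.2.1], by linarith [hp'.2.2]⟩

theorem down_sub {z p : ℝ × ℝ} {w : ℂ} (hw : w ∈ Tri 1) (h : ph p = ph z - w) :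
    p ∈ Pc (z, false) := by
  obtain ⟨p', hp', rfl⟩ := tri_sub zero_le_one hw
  rw [← ph_sub] at h
  have := ph_inj h
  rw [this, mem_Pc_false]
  simp only [Prod.fst_sub, Prod.snd_sub]
  exact ⟨by linarith [hp'.1], by linarith [hp'.2.1], by linarith [hp'.2.2]⟩

/-- the whole family of homothetic pieces -/
def fam {u d : ℕ} (z : Fin u → ℝ × ℝ) (z' : Fin d → ℝ × ℝ) : Fin (u + d) → (ℝ × ℝ) × Bool :=
  Fin.addCases (fun i => (z i, true)) (fun i => (z' i, false))

theorem dd_fam {u d : ℕ} (z : Fin u → ℝ × ℝ) (z' : Fin d → ℝ × ℝ) :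
    dd (fam z z') = (u : ℤ) - d := by
  unfold dd
  rw [Fin.sum_univ_add]
  simp [fam, Fin.addCases_left, Fin.addCases_right]
  ring

theorem main_plane {x : ℝ} (hx : 0 < x) (u d : ℕ) (P : Fin u → ℂ) (D : Fin d → ℂ) (A B C : ℂ)
    (h1 : dist A B = 1) (h2 : dist B C = 1) (h3 : dist A C = 1)
    (hcov : Tri x ⊆ (⋃ i, {p | ∃ w ∈ Tri 1, p = P i + w}) ∪ (⋃ i, {p | ∃ w ∈ Tri 1, p = D i - w}) ∪
      convexHull ℝ ({A, B, C} : Set ℂ)) :
    2 * ((u : ℝ) - d) * x - ((u : ℝ) - d) ^ 2 ≤ u + d := by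
  rcases lt_or_ge u d with hud | hud
  · have : (u : ℝ) < d := by exact_mod_cast hud
    have h4 : 0 ≤ (u : ℝ) := Nat.cast_nonneg u
    have h5 : ((u : ℝ) - d) * x ≤ 0 := mul_nonpos_of_nonpos_of_nonneg (by linarith) hx.le
    nlinarith [sq_nonneg ((u : ℝ) - d)]
  choose z hz using fun i => ph_surj (P i)
  choose z' hz' using fun i => ph_surj (D i)
  obtain ⟨j, hj⟩ := Nat.exists_eq_add_of_le hud
  have hdd : dd (fam z z') = (j : ℤ) := by rw [dd_fam, hj]; push_cast; ring
  have hjr : (u : ℝ) - d = j := by rw [hj]; push_cast; ring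
  have hcov' : ∀ p ∈ Del x, (∃ i, p ∈ Pc (fam z z' i)) ∨ ph p ∈ convexHull ℝ ({A, B, C} : Set ℂ) := by
    intro p hp
    rcases hcov (del_sub hx hp) with (h | h) | h
    · obtain ⟨i, w, hw, e⟩ := mem_iUnion.1 h
      rw [← hz i] at e
      refine Or.inl ⟨Fin.castAdd d i, ?_⟩
      have := up_sub hw e
      simpa [fam, Fin.addCases_left] using this
    · obtain ⟨i, w, hw, e⟩ := mem_iUnion.1 h
      rw [← hz' i] at e
      refine Or.inl ⟨Fin.natAdd u i, ?_⟩
      have := down_sub hw e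
      simpa [fam, Fin.addCases_right] using this
    · exact Or.inr h
  rw [hjr]
  rcases exists_par A B C h1 h2 h3 with ⟨z0, b, hb⟩ | ⟨a, q, r, c1, c2, c3, s, hs, Pr, hc, hE⟩
  · -- homothetic
    have hk := key (N := u + d + 1) (Fin.snoc (fam z z') (z0, b) : Fin (u + d + 1) → _) x (by
      intro p hp
      rcases hcov' p hp with ⟨i, hi⟩ | h
      · exact ⟨Fin.castSucc i, by simpa using hi⟩
      · exact ⟨Fin.last _, by simpa using hb p h⟩) j (by
      intro h
      unfold dd at h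
      rw [Fin.sum_univ_castSucc] at h
      simp only [Fin.snoc_castSucc, Fin.snoc_last] at h
      have h4 : ∑ i, (if (fam z z' i).2 = true then (1 : ℤ) else -1) = j := hdd
      rw [h4] at h
      cases b <;> simp at h)
    push_cast at hk
    linarith
  · have hm := model_one hs Pr hc (fam z z') hx j hdd (by
      intro p hp
      rcases hcov' p hp with h | h
      · exact Or.inl h
      · exact Or.inr (hE p h))
    push_cast at hm
    linarith

end Pool.Agent.TurnOne
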