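import Pool.Agent.TurnOne.Plane

/-! Coverings by homothetic unit triangles with a prescribed difference between the numbers of the
two orientations (strip construction of `Pool.Agent.TriCov.Upper`, orientations counted). -/

set_option autoImplicit false

namespace Pool.Agent.TurnOne

open Set Pool.Agent.TriCov

/-- `Del x` is covered by `N` pieces, `D` more ups than downs -/
def CovN (x : ℝ) (N D : ℕ) : Prop :=
  ∃ A B : List (ℝ × ℝ), A.length + B.length = N ∧ A.length = B.length + D ∧
    ∀ p ∈ Del x, (∃ z ∈ A, p ∈ Pc (z, true)) ∨ (∃ z ∈ B, p ∈ Pc (z, false))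

/-- the same without the bottom side -/
def CovN' (x : ℝ) (N D : ℕ) : Prop :=
  ∃ A B : List (ℝ × ℝ), A.length + B.length = N ∧ A.length = B.length + D ∧
    ∀ p ∈ Del x, 0 < p.2 → (∃ z ∈ A, p ∈ Pc (z, true)) ∨ (∃ z ∈ B, p ∈ Pc (z, false))

theorem CovN.cov' {x : ℝ} {N D : ℕ} (h : CovN x N D) : CovN' x N D := by
  obtain ⟨A, B, h1, h2, h⟩ := h
  exact ⟨A, B, h1, h2, fun p hp _ => h p hp⟩

theorem CovN.mono {x y : ℝ} {N D : ℕ} (h : CovN x N D) (hy : y ≤ x) : CovN y N D := by
  obtain ⟨A, B, h1, h2, h⟩ := h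
  exact ⟨A, B, h1, h2, fun p hp => h p ⟨hp.1, hp.2.1, hp.2.2.trans hy⟩⟩

theorem stripD {x : ℝ} {N D : ℕ} (h : CovN' x N D) (U : ℕ) (hU : 0 < U) (hx : -1 < x) :
    CovN (1 + (U - 1) * ((x + 1) / U)) (N + (2 * U - 1)) (D + 1) := by
  obtain ⟨A, B, hN, hD, h⟩ := h
  have hU' : (0 : ℝ) < U := by exact_mod_cast hU
  set s : ℝ := (x + 1) / U with hs
  have hs0 : 0 < s := by rw [hs]; apply div_pos <;> linarith
  have hsU : s * U = x + 1 := by rw [hs]; field_simp
  set H : ℝ := 2 - s with hH
  refine ⟨A.map (fun z => (z.1, z.2 + H)) ++ (List.range U).map (fun i : ℕ => ((i : ℝ) * s, (0 : ℝ))),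
    B.map (fun z => (z.1, z.2 + H)) ++
      (List.range (U - 1)).map (fun i : ℕ => (((i : ℝ) + 1) * s, H)), ?_, ?_, ?_⟩
  · simp only [List.length_append, List.length_map, List.length_range]
    omega
  · simp only [List.length_append, List.length_map, List.length_range]
    omega
  · rintro ⟨u, v⟩ ⟨hu, hv, huv⟩
    simp only at hu hv huv
    by_cases hvH : H < v
    · rcases h (u, v - H) ⟨hu, by simp only; linarith, by
        simp only
        have : (x : ℝ) = s * U - 1 := by linarith
        nlinarith⟩ (by simp only; linarith) with ⟨z, hz, hpa⟩ | ⟨z, hz, hpa⟩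
      · left
        refine ⟨(z.1, z.2 + H), ?_, ?_⟩
        · exact List.mem_append_left _ (List.mem_map.2 ⟨z, hz, rfl⟩)
        · rw [mem_Pc_true] at hpa
          simp only at hpa
          rw [mem_Pc_true]
          simp only
          exact ⟨hpa.1, by linarith [hpa.2.1], by linarith [hpa.2.2]⟩
      · right
        refine ⟨(z.1, z.2 + H), ?_, ?_⟩
        · exact List.mem_append_left _ (List.mem_map.2 ⟨z, hz, rfl⟩)
        · rw [mem_Pc_false] at hpa
          simp only at hpa
          rw [mem_Pc_false]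
          simp only
          exact ⟨hpa.1, by linarith [hpa.2.1], by linarith [hpa.2.2]⟩
    · have hvH : v ≤ H := not_lt.1 hvH
      -- the last multiple of `s` below `u`
      set i : ℕ := min (U - 1) ⌊u / s⌋₊ with hi
      have hiU : i < U := by
        have : i ≤ U - 1 := min_le_left _ _
        omega
      have his : (i : ℝ) * s ≤ u := by
        have h1 : (i : ℝ) ≤ (⌊u / s⌋₊ : ℝ) := by exact_mod_cast min_le_right _ _
        have h2 : (⌊u / s⌋₊ : ℝ) ≤ u / s := Nat.floor_le (by positivity)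
        have h3 : (i : ℝ) ≤ u / s := h1.trans h2
        rwa [le_div_iff₀ hs0] at h3
      by_cases hw : u + v ≤ i * s + 1
      · left
        refine ⟨((i : ℝ) * s, (0 : ℝ)), ?_, ?_⟩
        · refine List.mem_append_right _ (List.mem_map.2 ⟨i, ?_, rfl⟩)
          exact List.mem_range.2 hiU
        · rw [mem_Pc_true]
          simp only
          exact ⟨his, hv, by linarith⟩
      · push Not at hw
        have hi1 : i < U - 1 := by
          by_contra hcon
          have hiU' : i = U - 1 := by omega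
          have : (i : ℝ) = (U : ℝ) - 1 := by
            rw [hiU']
            push_cast [Nat.cast_sub hU]
            ring
          rw [this] at hw
          linarith
        have hfl : i = ⌊u / s⌋₊ := by
          rcases min_choice (U - 1) ⌊u / s⌋₊ with h1 | h1
          · omega
          · rw [hi, h1]
        have hlt : u < ((i : ℝ) + 1) * s := by
          have h1 : u / s < (⌊u / s⌋₊ : ℝ) + 1 := Nat.lt_floor_add_one _
          rw [← hfl, div_lt_iff₀ hs0] at h1
          exact h1
        right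
        refine ⟨(((i : ℝ) + 1) * s, H), ?_, ?_⟩
        · refine List.mem_append_right _ (List.mem_map.2 ⟨i, ?_, rfl⟩)
          exact List.mem_range.2 hi1
        · rw [mem_Pc_false]
          simp only
          refine ⟨hlt.le, hvH, ?_⟩
          rw [hH]
          nlinarith

/-- the lattice tiling -/
theorem covD_nat (p : ℕ) : CovN' p (p ^ 2) p ∧ (1 ≤ p → CovN p (p ^ 2) p) := by
  induction p with
  | zero =>
    refine ⟨⟨[], [], rfl, rfl, ?_⟩, fun h => absurd h (by norm_num)⟩
    rintro ⟨u, v⟩ ⟨hu, hv, huv⟩ h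
    simp only [Nat.cast_zero] at hu hv huv h
    linarith
  | succ p ih =>
    have h1 := stripD ih.1 (p + 1) (Nat.succ_pos p) (by
      have : (0 : ℝ) ≤ p := Nat.cast_nonneg p
      linarith)
    have h2 : CovN ((p + 1 : ℕ) : ℝ) ((p + 1) ^ 2) (p + 1) := by
      convert h1 using 1
      · push_cast
        have : (p : ℝ) + 1 ≠ 0 := by positivity
        field_simp
        ring
      · have : 2 * (p + 1) - 1 = 2 * p + 1 := by omega
        rw [this]
        ring
    exact ⟨h2.cov', fun _ => h2⟩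

/-- first family -/
theorem covD_one (p : ℕ) (hp : 1 ≤ p) (q : ℕ) :
    CovN ((p + q : ℕ) - (q : ℝ) / ((p + q : ℕ) - 1)) ((p + q) ^ 2 - 2 * q) (p + q) := by
  induction q with
  | zero => simpa using (covD_nat p).2 hp
  | succ q ih =>
    have hp' : (1 : ℝ) ≤ p := by exact_mod_cast hp
    have hq' : (0 : ℝ) ≤ q := Nat.cast_nonneg q
    have hx : (-1 : ℝ) < (p + q : ℕ) - (q : ℝ) / ((p + q : ℕ) - 1) := by
      push_cast
      rcases Nat.eq_zero_or_pos q with h0 | h0
      · subst h0; simp; linarith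
      · have hq1 : (1 : ℝ) ≤ q := by exact_mod_cast h0
        have h1 : (q : ℝ) / ((p : ℝ) + q - 1) ≤ 1 := by
          rw [div_le_one (by linarith)]
          linarith
        linarith
    have h1 := stripD ih.cov' (p + q) (by omega) hx
    convert h1 using 1
    · push_cast
      rcases Nat.eq_zero_or_pos q with h0 | h0
      · subst h0
        have : (p : ℝ) ≠ 0 := by positivity
        simp
        field_simp
        ring
      · have hq1 : (1 : ℝ) ≤ q := by exact_mod_cast h0
        have h2 : (p : ℝ) + q - 1 ≠ 0 := by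
          have : (0 : ℝ) < (p : ℝ) + q - 1 := by linarith
          exact this.ne'
        have h3 : (p : ℝ) + q ≠ 0 := by positivity
        have h4 : (p : ℝ) + (q + 1) - 1 = p + q := by ring
        rw [h4]
        field_simp
        ring
    · have h5 : 2 * q ≤ (p + q) ^ 2 := by nlinarith
      have h6 : (p + (q + 1)) ^ 2 = (p + q) ^ 2 + 2 * (p + q) + 1 := by ring
      rw [h6]
      omega
    · omega

/-- second family -/
theorem covD_two (p : ℕ) (q : ℕ) :
    CovN' ((p + q : ℕ) + (q : ℝ) / ((p + q : ℕ) + 1)) ((p + q) ^ 2 + 2 * q) (p + q) ∧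
    (1 ≤ q → CovN ((p + q : ℕ) + (q : ℝ) / ((p + q : ℕ) + 1)) ((p + q) ^ 2 + 2 * q) (p + q)) := by
  induction q with
  | zero => exact ⟨by simpa using (covD_nat p).1, fun h => absurd h (by norm_num)⟩
  | succ q ih =>
    have hp' : (0 : ℝ) ≤ p := Nat.cast_nonneg p
    have hq' : (0 : ℝ) ≤ q := Nat.cast_nonneg q
    have hx : (-1 : ℝ) < (p + q : ℕ) + (q : ℝ) / ((p + q : ℕ) + 1) := by
      push_cast
      have : (0 : ℝ) ≤ (q : ℝ) / ((p : ℝ) + q + 1) := by positivity
      linarith
    have h1 := stripD ih.1 (p + q + 2) (by omega) hx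
    have h2 : CovN ((p + (q + 1) : ℕ) + ((q + 1 : ℕ) : ℝ) / ((p + (q + 1) : ℕ) + 1))
        ((p + (q + 1)) ^ 2 + 2 * (q + 1)) (p + (q + 1)) := by
      convert h1 using 1
      · push_cast
        have h3 : (p : ℝ) + q + 1 ≠ 0 := by positivity
        have h4 : (p : ℝ) + q + 2 ≠ 0 := by positivity
        have h5 : (p : ℝ) + (q + 1) + 1 = p + q + 2 := by ring
        rw [h5]
        field_simp
        ring
      · have h6 : (p + (q + 1)) ^ 2 = (p + q) ^ 2 + 2 * (p + q) + 1 := by ring
        rw [h6]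
        omega
      · omega
    exact ⟨h2.cov', fun _ => h2⟩

/-- `A`, `B` and one more homothetic piece -/
def CovX (x : ℝ) (u d : ℕ) : Prop :=
  ∃ (A : Fin u → ℝ × ℝ) (B : Fin d → ℝ × ℝ) (c : (ℝ × ℝ) × Bool),
    ∀ p ∈ Del x, (∃ i, p ∈ Pc (A i, true)) ∨ (∃ i, p ∈ Pc (B i, false)) ∨ p ∈ Pc c

theorem CovX.pad {x : ℝ} {u d : ℕ} (h : CovX x u d) (t : ℕ) : CovX x (u + t) (d + t) := by
  obtain ⟨A, B, c, h⟩ := h
  refine ⟨Fin.addCases A fun _ => (0, 0), Fin.addCases B fun _ => (0, 0), c, fun p hp => ?_⟩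
  rcases h p hp with ⟨i, hi⟩ | ⟨i, hi⟩ | hc
  · exact Or.inl ⟨Fin.castAdd t i, by simpa using hi⟩
  · exact Or.inr (Or.inl ⟨Fin.castAdd t i, by simpa using hi⟩)
  · exact Or.inr (Or.inr hc)

theorem covX_of_lists {x : ℝ} (A B : List (ℝ × ℝ)) (c : (ℝ × ℝ) × Bool)
    (h : ∀ p ∈ Del x, (∃ z ∈ A, p ∈ Pc (z, true)) ∨ (∃ z ∈ B, p ∈ Pc (z, false)) ∨ p ∈ Pc c) :
    CovX x A.length B.length := by
  refine ⟨A.get, B.get, c, fun p hp => ?_⟩
  rcases h p hp with ⟨z, hz, hpz⟩ | ⟨z, hz, hpz⟩ | hc
  · obtain ⟨i, hi⟩ := List.get_of_mem hz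
    exact Or.inl ⟨i, by rw [hi]; exact hpz⟩
  · obtain ⟨i, hi⟩ := List.get_of_mem hz
    exact Or.inr (Or.inl ⟨i, by rw [hi]; exact hpz⟩)
  · exact Or.inr (Or.inr hc)

/-- drop an up -/
theorem CovN.dropUp {x : ℝ} {N D : ℕ} (h : CovN x N (D + 1)) :
    ∃ u d, u + d + 1 = N ∧ u = d + D ∧ CovX x u d := by
  obtain ⟨A, B, h1, h2, h⟩ := h
  cases A with
  | nil => simp at h2
  | cons z A =>
    rw [List.length_cons] at h1 h2
    refine ⟨A.length, B.length, by omega, by omega, covX_of_lists A B (z, true) fun p hp => ?_⟩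
    rcases h p hp with ⟨z', hz', hp'⟩ | h'
    · rcases List.mem_cons.1 hz' with e | hz''
      · rw [e] at hp'; exact Or.inr (Or.inr hp')
      · exact Or.inl ⟨z', hz'', hp'⟩
    · exact Or.inr (Or.inl h')

/-- drop a down -/
theorem CovN.dropDown {x : ℝ} {N D : ℕ} (h : CovN x N D) (hN : D + 2 ≤ N) :
    ∃ u d, u + d + 1 = N ∧ u = d + (D + 1) ∧ CovX x u d := by
  obtain ⟨A, B, h1, h2, h⟩ := h
  cases B with
  | nil => simp at h1 h2; omega
  | cons z B =>
    rw [List.length_cons] at h1 h2
    refine ⟨A.length, B.length, by omega, by omega, covX_of_lists A B (z, false) fun p hp => ?_⟩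
    rcases h p hp with h' | ⟨z', hz', hp'⟩
    · exact Or.inl h'
    · rcases List.mem_cons.1 hz' with e | hz''
      · rw [e] at hp'; exact Or.inr (Or.inr hp')
      · exact Or.inr (Or.inl ⟨z', hz'', hp'⟩)

theorem CovN.toX {x : ℝ} {N D : ℕ} (h : CovN x N D) :
    ∃ u d, u + d = N ∧ u = d + D ∧ CovX x u d := by
  obtain ⟨A, B, h1, h2, h⟩ := h
  refine ⟨A.length, B.length, h1, h2, covX_of_lists A B ((0, 0), true) fun p hp => ?_⟩
  rcases h p hp with h' | h'
  · exact Or.inl h'
  · exact Or.inr (Or.inl h')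

/-- coverings that attain the bound `u + d ≥ 2 (u - d) x - (u - d)^2` -/
theorem sharp (j : ℕ) (hj : 1 ≤ j) (x : ℝ) (hx1 : (j : ℝ) - 1 ≤ x)
    (hx2 : x ≤ j + 1) (u d : ℕ) (hud : u = d + j)
    (hb : 2 * (j : ℝ) * x - j ^ 2 ≤ u + d) : CovX x u d := by
  have hj1 : (1 : ℝ) ≤ j := by exact_mod_cast hj
  have hj0 : (0 : ℝ) < j := by linarith
  -- one piece covers `Del 1`
  rcases le_or_gt x 1 with hx' | hx'
  · refine ⟨fun _ => (0, 0), fun _ => (0, 0), ((0, 0), true), fun p hp => Or.inr (Or.inr ?_)⟩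
    rw [mem_Pc_true]
    exact ⟨hp.1, hp.2.1, by simp only; linarith [hp.2.2]⟩
  -- it is enough to find a covering with fewer pieces
  have fin : ∀ u' d', u' = d' + j → u' + d' ≤ u + d → CovX x u' d' → CovX x u d := by
    intro u' d' h1 h2 h
    have h3 := h.pad (d - d')
    have e1 : u' + (d - d') = u := by omega
    have e2 : d' + (d - d') = d := by omega
    rw [e1, e2] at h3
    exact h3
  rcases le_or_gt (j : ℝ) x with hc | hc
  · -- above j
    set k : ℕ := ⌈(j : ℝ) * (x - j)⌉₊ with hk
    have hk1 : (j : ℝ) * (x - j) ≤ k := Nat.le_ceil _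
    have hkj : k ≤ j := by
      rw [hk]
      apply Nat.ceil_le.2
      nlinarith
    have h3 := covD_one (k + 1) (by omega) (j - k)
    have h4 : k + 1 + (j - k) = j + 1 := by omega
    rw [h4] at h3
    have h5 := h3.mono (y := x) (by
      push_cast [Nat.cast_sub hkj]
      have h5 : ((j : ℝ) - k) / ((j : ℝ) + 1 - 1) = 1 - k / j := by
        have : (j : ℝ) + 1 - 1 = j := by ring
        rw [this]
        field_simp
      rw [h5]
      have : x - j ≤ k / (j : ℝ) := by
        rw [le_div_iff₀ hj0]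
        linarith
      linarith)
    obtain ⟨u', d', e1, e2, e3⟩ := h5.dropUp
    apply fin u' d' e2 _ e3
    -- count
    have h6 : (j + 1) ^ 2 - 2 * (j - k) = j ^ 2 + 1 + 2 * k := by
      have : (j + 1) ^ 2 = j ^ 2 + 2 * j + 1 := by ring
      rw [this]; omega
    rw [h6] at e1
    -- u + d ≥ j^2 + 2 j (x - j), same parity
    have h7 : (j : ℝ) * (x - j) ≤ (((u + d) - j ^ 2) / 2 : ℝ) := by nlinarith
    have hsq : ∃ w : ℤ, (u : ℤ) + d = j ^ 2 + 2 * w := by
      obtain ⟨w, hw⟩ := Int.even_mul_pred_self (j : ℤ)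
      refine ⟨d - w, ?_⟩
      rw [hud]
      push_cast
      nlinarith
    obtain ⟨w, hw⟩ := hsq
    have hw' : ((u : ℝ) + d) = j ^ 2 + 2 * w := by exact_mod_cast hw
    have h8 : (j : ℝ) * (x - j) ≤ w := by linarith
    have h9 : (k : ℤ) ≤ w := by
      have hw0 : 0 ≤ w := by
        have : (0 : ℝ) ≤ (w : ℝ) := le_trans (by nlinarith) h8
        exact_mod_cast this
      obtain ⟨m, rfl⟩ := Int.eq_ofNat_of_zero_le hw0
      have : k ≤ m := Nat.ceil_le.2 (by exact_mod_cast h8)
      exact_mod_cast this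
    zify
    zify at e1
    linarith
  · -- below j
    set k : ℕ := ⌊(j : ℝ) * (j - x)⌋₊ with hk
    have hk1 : (k : ℝ) ≤ (j : ℝ) * (j - x) := Nat.floor_le (by nlinarith)
    have hk2 : (j : ℝ) * (j - x) < k + 1 := Nat.lt_floor_add_one _
    have hkj : k ≤ j := by
      have : (k : ℝ) ≤ j := hk1.trans (by nlinarith)
      exact_mod_cast this
    have hsq : ∃ w : ℤ, (u : ℤ) + d = j ^ 2 - 2 * w := by
      obtain ⟨w, hw⟩ := Int.even_mul_pred_self (j : ℤ)
      refine ⟨w - d, ?_⟩
      rw [hud]
      push_cast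
      nlinarith
    obtain ⟨w, hw⟩ := hsq
    have hw' : ((u : ℝ) + d) = j ^ 2 - 2 * w := by exact_mod_cast hw
    have hwk : w ≤ k := by
      have h8 : (w : ℝ) ≤ (j : ℝ) * (j - x) := by nlinarith
      have h9 : (w : ℝ) < k + 1 := lt_of_le_of_lt h8 hk2
      have h10 : w < k + 1 := by exact_mod_cast h9
      omega
    rcases Nat.eq_zero_or_pos k with h0 | h0
    · have h3 := ((covD_nat j).2 hj).mono (y := x) hc.le
      obtain ⟨u', d', e1, e2, e3⟩ := h3.toX
      apply fin u' d' e2 _ e3
      zify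
      zify at e1
      rw [h0] at hwk
      push_cast at hwk
      linarith
    · -- second family with q = j - k, p + q = j - 1
      have hkj' : k < j ∨ k = j := lt_or_eq_of_le hkj
      rcases hkj' with hlt | heq
      · have h3 := (covD_two (k - 1) (j - k)).2 (by omega)
        have h4 : k - 1 + (j - k) = j - 1 := by omega
        rw [h4] at h3
        have hj1' : ((j - 1 : ℕ) : ℝ) = j - 1 := by push_cast [Nat.cast_sub hj]; ring
        have h5 := h3.mono (y := x) (by
          rw [hj1']
          push_cast [Nat.cast_sub hkj]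
          have h5 : ((j : ℝ) - k) / ((j : ℝ) - 1 + 1) = 1 - k / j := by
            have : (j : ℝ) - 1 + 1 = j := by ring
            rw [this]
            field_simp
          rw [h5]
          have : (k : ℝ) / j ≤ j - x := by
            rw [div_le_iff₀ hj0]
            linarith
          linarith)
        have hNe : (j - 1) ^ 2 + 2 * (j - k) + 2 * k = j ^ 2 + 1 := by
          obtain ⟨m, rfl⟩ := Nat.exists_eq_add_of_le hj
          have : 1 + m - 1 = m := by omega
          rw [this]
          have h7 : (1 + m) ^ 2 = m ^ 2 + 2 * m + 1 := by ring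
          rw [h7]; omega
        have hN : (j - 1) + 2 ≤ (j - 1) ^ 2 + 2 * (j - k) := by
          have h7 : 2 ≤ 2 * (j - k) := by omega
          have h8 : j - 1 ≤ (j - 1) ^ 2 := Nat.le_self_pow (by norm_num) _
          omega
        obtain ⟨u', d', e1, e2, e3⟩ := h5.dropDown hN
        have e4 : j - 1 + 1 = j := by omega
        rw [e4] at e2
        apply fin u' d' e2 _ e3
        have e5 : u' + d' + 1 + 2 * k = j ^ 2 + 1 := by rw [e1]; exact hNe
        zify
        zify at e5
        linarith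
      · -- k = j: x = j - 1
        have hx3 : x ≤ j - 1 := by
          rw [heq] at hk1
          have : (j : ℝ) * 1 ≤ j * (j - x) := by linarith
          have := le_of_mul_le_mul_left this hj0
          linarith
        have hj3 : 3 ≤ j := by
          by_contra h
          have h4 : j ≤ 2 := by omega
          have h5 : (j : ℝ) ≤ 2 := by exact_mod_cast h4
          linarith
        have h3 := ((covD_nat (j - 1)).2 (by omega)).mono (y := x) (by
          push_cast [Nat.cast_sub hj]; linarith)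
        have hNe : (j - 1) ^ 2 + 2 * j = j ^ 2 + 1 ∧ (j - 1) + 2 ≤ (j - 1) ^ 2 := by
          obtain ⟨m, rfl⟩ := Nat.exists_eq_add_of_le hj3
          have : 3 + m - 1 = m + 2 := by omega
          rw [this]
          constructor
          · ring
          · nlinarith
        obtain ⟨u', d', e1, e2, e3⟩ := h3.dropDown hNe.2
        have e4 : j - 1 + 1 = j := by omega
        rw [e4] at e2
        apply fin u' d' e2 _ e3
        have e5 : u' + d' + 1 + 2 * j = j ^ 2 + 1 := by rw [e1]; exact hNe.1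
        rw [heq] at hwk
        zify
        zify at e5
        linarith

end Pool.Agent.TurnOne
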